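import Pool.Agent.H191Z.RDefs
import Pool.Agent.H191Z.GenusDefs

set_option autoImplicit false

open TensorProduct CategoryTheory AlgebraicGeometry Polynomial
open Pool.Agent.H191Z.Gerbe Pool.Agent.H191Z.Rig

namespace Pool.Agent.H948Z.RigHelp

lemma exists_roots (Ω : Type) [Field Ω] [IsAlgClosed Ω] (V : ValuationSubring Ω) (n : ℕ) :
    ∀ f : V[X], f.Monic → f.natDegree = n →
      ∃ s : Multiset V, f = (s.map (fun r => X - C r)).prod := by
  induction n with
  | zero =>
    intro f hf h
    exact ⟨0, by simpa using (hf.natDegree_eq_zero).1 h⟩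
  | succ n ih =>
    intro f hf h
    have hdeg : (f.map (algebraMap V Ω)).degree ≠ 0 := by
      rw [hf.degree_map, Polynomial.degree_eq_natDegree hf.ne_zero, h]
      exact_mod_cast Nat.succ_ne_zero n
    obtain ⟨x, hx⟩ := IsAlgClosed.exists_root _ hdeg
    have hint : IsIntegral V x := ⟨f, hf, by rwa [IsRoot, Polynomial.eval_map] at hx⟩
    obtain ⟨r, rfl⟩ := IsIntegrallyClosed.algebraMap_eq_of_integral hint
    have hr : f.IsRoot r := by
      rw [IsRoot, Polynomial.eval_map, eval₂_at_apply] at hx
      exact (map_eq_zero_iff _ (FaithfulSMul.algebraMap_injective V Ω)).1 hx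
    obtain ⟨g, hg⟩ := dvd_iff_isRoot.2 hr
    have hgm : g.Monic := (monic_X_sub_C r).of_mul_monic_left (hg ▸ hf)
    have hgd : g.natDegree = n := by
      have := (monic_X_sub_C r).natDegree_mul hgm
      rw [← hg, h, natDegree_X_sub_C] at this
      omega
    obtain ⟨s, hs⟩ := ih g hgm hgd
    exact ⟨r ::ₘ s, by rw [Multiset.map_cons, Multiset.prod_cons, ← hs, hg]⟩

lemma aeval_idem {V N : Type} [CommRing V] [CommRing N] [Algebra V N] {δ : N}
    (hδ : IsIdempotentElem δ) (g : V[X]) :
    aeval δ g = algebraMap V N (g.eval 0) * (1 - δ) + algebraMap V N (g.eval 1) * δ := by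
  induction g using Polynomial.induction_on' with
  | add p q hp hq => simp only [map_add, eval_add, hp, hq]; ring
  | monomial n a =>
    cases n with
    | zero => simp; ring
    | succ n => simp [aeval_monomial, hδ.pow_succ_eq]

theorem exists_idem_poly (Ω : Type) [Field Ω] [IsAlgClosed Ω] (V : ValuationSubring Ω)
    (f : V[X]) (hf : f.Monic) : ∃ h : V[X],
    (∀ (M : Type) [CommRing M] [Algebra V M] (c : M), aeval c f = 0 →
      IsIdempotentElem (aeval c h)) ∧
    ∀ (N : Type) [CommRing N] [Algebra V N] (δ : N),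
      IsIdempotentElem δ → aeval δ f = 0 → aeval δ h = δ := by
  classical
  obtain ⟨s, hs⟩ := exists_roots Ω V _ f hf rfl
  let P : V → Prop := fun r => IsUnit (1 - r)
  let f0 : V[X] := ((s.filter P).map (fun r => X - C r)).prod
  let f1 : V[X] := ((s.filter (fun r => ¬ P r)).map (fun r => X - C r)).prod
  have hff : f = f0 * f1 := by
    rw [hs, ← Multiset.prod_add, ← Multiset.map_add, Multiset.filter_add_not]
  have hcop : IsCoprime f0 f1 := by
    refine Multiset.prod_induction (fun x => IsCoprime x f1) _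
      (fun a b ha hb => ha.mul_left hb) isCoprime_one_left ?_
    intro a ha
    obtain ⟨r, hr, rfl⟩ := Multiset.mem_map.1 ha
    refine Multiset.prod_induction (fun x => IsCoprime (X - C r) x) _
      (fun a b ha hb => ha.mul_right hb) isCoprime_one_right ?_
    intro b hb
    obtain ⟨t, ht, rfl⟩ := Multiset.mem_map.1 hb
    apply isCoprime_X_sub_C_of_isUnit_sub
    have h1 : IsUnit (1 - r) := (Multiset.mem_filter.1 hr).2
    have h2 : ¬ IsUnit (1 - t) := (Multiset.mem_filter.1 ht).2
    have h3 : IsUnit ((t - r) + (1 - t)) := by convert h1 using 1; ring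
    have h4 := (IsLocalRing.isUnit_or_isUnit_of_isUnit_add h3).resolve_right h2
    have := h4.neg
    rwa [neg_sub] at this
  have hu0 : IsUnit (f0.eval 1) := by
    refine Multiset.prod_induction (fun x : V[X] => IsUnit (x.eval 1)) _
      (fun a b ha hb => by rw [eval_mul]; exact ha.mul hb) (by simp) ?_
    intro a ha
    obtain ⟨r, hr, rfl⟩ := Multiset.mem_map.1 ha
    simpa using (Multiset.mem_filter.1 hr).2
  have hu1 : IsUnit (f1.eval 0) := by
    refine Multiset.prod_induction (fun x : V[X] => IsUnit (x.eval 0)) _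
      (fun a b ha hb => by rw [eval_mul]; exact ha.mul hb) (by simp) ?_
    intro a ha
    obtain ⟨r, hr, rfl⟩ := Multiset.mem_map.1 ha
    have h2 : ¬ IsUnit (1 - r) := (Multiset.mem_filter.1 hr).2
    have h4 := (IsLocalRing.isUnit_or_isUnit_one_sub_self r).resolve_right h2
    simpa using h4
  obtain ⟨a, b, hab⟩ := hcop
  refine ⟨a * f0, ?_, ?_⟩
  · intro M _ _ c hc
    have h1 : aeval c (a * f0) + aeval c (b * f1) = 1 := by rw [← map_add, hab, map_one]
    have h2 : aeval c (a * f0) * aeval c (b * f1) = 0 := by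
      rw [← map_mul, show a * f0 * (b * f1) = a * b * (f0 * f1) by ring, ← hff, map_mul, hc,
        mul_zero]
    unfold IsIdempotentElem
    linear_combination (aeval c (a * f0)) * h1 - h2
  · intro N _ _ δ hδ hc
    have hδ' : δ * δ = δ := hδ
    rw [aeval_idem hδ, hff, eval_mul, eval_mul, map_mul, map_mul] at hc
    have h0 : algebraMap V N (f1.eval 0) * (algebraMap V N (f0.eval 0) * (1 - δ)) = 0 := by
      linear_combination (1 - δ) * hc -
        (algebraMap V N (f0.eval 0) * algebraMap V N (f1.eval 0) -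
          algebraMap V N (f0.eval 1) * algebraMap V N (f1.eval 1)) * hδ'
    have h1 : algebraMap V N (f0.eval 1) * (algebraMap V N (f1.eval 1) * δ) = 0 := by
      linear_combination δ * hc +
        (algebraMap V N (f0.eval 0) * algebraMap V N (f1.eval 0) -
          algebraMap V N (f0.eval 1) * algebraMap V N (f1.eval 1)) * hδ'
    have h0' := (hu1.map (algebraMap V N)).mul_right_eq_zero.1 h0
    have h1' := (hu0.map (algebraMap V N)).mul_right_eq_zero.1 h1
    have h2 : algebraMap V N (a.eval 1) * algebraMap V N (f0.eval 1) +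
        algebraMap V N (b.eval 1) * algebraMap V N (f1.eval 1) = 1 := by
      rw [← map_mul, ← map_mul, ← map_add, ← eval_mul, ← eval_mul, ← eval_add, hab, eval_one,
        map_one]
    rw [aeval_idem hδ, eval_mul, eval_mul, map_mul, map_mul]
    linear_combination algebraMap V N (a.eval 0) * h0' + δ * h2 - algebraMap V N (b.eval 1) * h1'

lemma nilp_of_points (K S : Type) [Field K] [IsAlgClosed K] [CommRing S] [Algebra K S]
    [Algebra.FiniteType K S] (c : S) (h : ∀ φ : S →ₐ[K] K, φ c = 0) : IsNilpotent c := by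
  have : IsJacobsonRing S := isJacobsonRing_of_finiteType (A := K)
  have h1 : c ∈ (⊥ : Ideal S).jacobson := by
    refine Ideal.mem_sInf.2 ?_
    rintro m ⟨_, hm⟩
    let _ := Ideal.Quotient.field m
    have hfin := finite_of_finite_type_of_isJacobsonRing K (S ⧸ m)
    have hb : Function.Bijective (algebraMap K (S ⧸ m)) :=
      IsAlgClosed.algebraMap_bijective_of_isIntegral
    let e : K ≃ₐ[K] (S ⧸ m) := AlgEquiv.ofBijective (Algebra.ofId K _) hb
    have h2 := h (e.symm.toAlgHom.comp (Ideal.Quotient.mkₐ K m))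
    have h3 : Ideal.Quotient.mk m c = 0 := by
      apply e.symm.injective
      rw [map_zero]
      exact h2
    exact Ideal.Quotient.eq_zero_iff_mem.1 h3
  rw [← Ideal.radical_eq_jacobson] at h1
  obtain ⟨n, hn⟩ := h1
  exact ⟨n, hn⟩

theorem bijective_of_special_fibre (K V S Z : Type) [Field K] [IsAlgClosed K] [CommRing V]
    [IsLocalRing V] [Algebra K V] [CommRing S] [Algebra K S] [Algebra.FiniteType K S]
    [CommRing Z] [Algebra (V ⊗[K] S) Z] [Module.Flat (V ⊗[K] S) Z]
    [Module.FinitePresentation (V ⊗[K] S) Z]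
    (h : ∀ (F : Type) [Field F] [Algebra (V ⊗[K] S) F],
      (∀ x ∈ IsLocalRing.maximalIdeal V, algebraMap (V ⊗[K] S) F (x ⊗ₜ 1) = 0) →
      Module.finrank F (F ⊗[V ⊗[K] S] Z) = 1) :
    Function.Bijective (algebraMap (V ⊗[K] S) Z) := by
  classical
  rw [← Module.algebraMap_bijective_iff_rankAtStalk]
  have hlc := Module.isLocallyConstant_rankAtStalk (R := V ⊗[K] S) (M := Z)
  obtain ⟨η, hη, hU⟩ := PrimeSpectrum.exists_idempotent_basicOpen_eq_of_isClopen
    (hlc.isClopen_fiber 1).compl
  have hφ : ∀ φ : S →ₐ[K] K, Algebra.TensorProduct.lift (AlgHom.id K V)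
      ((Algebra.ofId K V).comp φ) (fun _ _ => Commute.all _ _) η = 0 := by
    intro φ
    set ψ := Algebra.TensorProduct.lift (AlgHom.id K V)
      ((Algebra.ofId K V).comp φ) (fun _ _ => Commute.all _ _) with hψ
    let p : PrimeSpectrum (V ⊗[K] S) :=
      ⟨(IsLocalRing.maximalIdeal V).comap ψ, Ideal.comap_isPrime _ _⟩
    have hp : Module.rankAtStalk Z p = 1 := by
      rw [Module.rankAtStalk_eq]
      apply h
      intro x hx
      rw [Ideal.algebraMap_residueField_eq_zero]
      change ψ (x ⊗ₜ 1) ∈ IsLocalRing.maximalIdeal V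
      simpa [hψ] using hx
    have hp' : p ∉ (PrimeSpectrum.basicOpen η : Set (PrimeSpectrum (V ⊗[K] S))) := by
      rw [← hU]
      exact fun h' => h' hp
    have hm : ψ η ∈ IsLocalRing.maximalIdeal V := by
      by_contra h'
      exact hp' h'
    have hid : IsIdempotentElem (ψ η) := hη.map ψ
    have hu : IsUnit (1 - ψ η) :=
      (IsLocalRing.isUnit_or_isUnit_one_sub_self (ψ η)).resolve_left hm
    exact hu.mul_right_eq_zero.1 hid.one_sub_mul_self
  let b := Module.Basis.ofVectorSpace K V
  obtain ⟨c, hc⟩ := TensorProduct.eq_repr_basis_left b η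
  have hcn : ∀ i, IsNilpotent (c i) := by
    intro i
    apply nilp_of_points K S
    intro φ
    have h1 := hφ φ
    rw [← hc, Finsupp.sum, map_sum] at h1
    have h2 : ∑ j ∈ c.support, φ (c j) • b j = 0 := by
      rw [← h1]
      refine Finset.sum_congr rfl fun j _ => ?_
      simp [Algebra.smul_def, mul_comm, Algebra.ofId_apply]
    by_cases hi : i ∈ c.support
    · exact linearIndependent_iff'.1 b.linearIndependent c.support (fun j => φ (c j)) h2 i hi
    · rw [Finsupp.notMem_support_iff.1 hi, map_zero]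
  have hnil : IsNilpotent η := by
    rw [← hc, Finsupp.sum]
    refine isNilpotent_sum fun j _ => ?_
    obtain ⟨n, hn⟩ := hcn j
    exact ⟨n, by rw [Algebra.TensorProduct.tmul_pow, hn, TensorProduct.tmul_zero]⟩
  have h0 : η = 0 := by
    obtain ⟨n, hn⟩ := hnil
    rw [← hη.pow_succ_eq n, pow_succ, hn, zero_mul]
  ext p
  by_contra hp
  have : p ∈ (PrimeSpectrum.basicOpen η : Set (PrimeSpectrum (V ⊗[K] S))) := by
    rw [← hU]; exact hp
  rw [h0] at this
  exact this (Ideal.zero_mem _)

end Pool.Agent.H948Z.RigHelp
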