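import Mathlib
import Pool.Agent.H392Z.MO.Spec2

set_option autoImplicit false

open Filter Topology Finset

namespace Pool.Agent.H948Z.FamD

open Pool.Agent.H392Z.MO

lemma mem_ico {s t : ℝ} {n : ℕ} : n ∈ Finset.Ico ⌈s⌉₊ ⌈t⌉₊ ↔ s ≤ n ∧ (n : ℝ) < t := by
  rw [Finset.mem_Ico, Nat.ceil_le, Nat.lt_ceil]

lemma card_ico {s t : ℝ} (hs : 0 ≤ s) (hst : s ≤ t) :
    ((Finset.Ico ⌈s⌉₊ ⌈t⌉₊).card : ℝ) ≤ 1 + (t - s) := by
  rw [Nat.card_Ico, Nat.cast_sub (Nat.ceil_mono hst)]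
  have h1 := Nat.le_ceil s
  have h2 := Nat.ceil_lt_add_one (hs.trans hst)
  linarith

open Classical in
lemma count_le {a0 a1 b0 b1 : ℝ} (ha0 : 0 < a0) (ha : a0 ≤ a1) (hb0 : 0 < b0) (hb : b0 ≤ b1) :
    (((Finset.Ico ⌈a0⌉₊ ⌈a1⌉₊).filter
      (fun p => ∃ r : ℕ, r * p ∈ Finset.Ico ⌈b0⌉₊ ⌈b1⌉₊)).card : ℝ) ≤
      (1 + (b1 / a0 - b0 / a1)) * (1 + (b1 - b0) * a1 / b0) := by
  have ha1 : 0 < a1 := ha0.trans_le ha
  have hsub : (Finset.Ico ⌈a0⌉₊ ⌈a1⌉₊).filter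
      (fun p => ∃ r : ℕ, r * p ∈ Finset.Ico ⌈b0⌉₊ ⌈b1⌉₊) ⊆
      (Finset.Ico ⌈b0 / a1⌉₊ ⌈b1 / a0⌉₊).biUnion
        (fun r => Finset.Ico ⌈b0 / r⌉₊ ⌈b1 / r⌉₊) := by
    intro p hp
    obtain ⟨hp1, r, hr⟩ := Finset.mem_filter.1 hp
    rw [mem_ico] at hp1 hr
    push_cast at hr
    have hp0 : (0 : ℝ) < p := ha0.trans_le hp1.1
    have hr0 : (0 : ℝ) < r := by
      by_contra h
      have : (r : ℝ) * p ≤ 0 := mul_nonpos_of_nonpos_of_nonneg (not_lt.1 h) hp0.le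
      linarith [hr.1]
    rw [Finset.mem_biUnion]
    refine ⟨r, mem_ico.2 ⟨?_, ?_⟩, mem_ico.2 ⟨?_, ?_⟩⟩
    · rw [div_le_iff₀ ha1]
      nlinarith [hr.1, hp1.2]
    · rw [lt_div_iff₀ ha0]
      nlinarith [hr.2, hp1.1]
    · rw [div_le_iff₀ hr0]; linarith [hr.1]
    · rw [lt_div_iff₀ hr0]; linarith [hr.2]
  have h1 : (((Finset.Ico ⌈b0 / a1⌉₊ ⌈b1 / a0⌉₊).biUnion
        (fun r => Finset.Ico ⌈b0 / r⌉₊ ⌈b1 / r⌉₊)).card : ℝ) ≤
      ∑ r ∈ Finset.Ico ⌈b0 / a1⌉₊ ⌈b1 / a0⌉₊, ((Finset.Ico ⌈b0 / r⌉₊ ⌈b1 / r⌉₊).card : ℝ) := by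
    exact_mod_cast Finset.card_biUnion_le
  have h2 : ∀ r ∈ Finset.Ico ⌈b0 / a1⌉₊ ⌈b1 / a0⌉₊,
      ((Finset.Ico ⌈b0 / r⌉₊ ⌈b1 / r⌉₊).card : ℝ) ≤ 1 + (b1 - b0) * a1 / b0 := by
    intro r hr
    rw [mem_ico] at hr
    have hr0 : (0 : ℝ) < r := (div_pos hb0 ha1).trans_le hr.1
    refine (card_ico (by positivity) (by gcongr)).trans ?_
    rw [← sub_div, add_le_add_iff_left, div_le_div_iff₀ hr0 hb0]
    have h3 : b0 ≤ r * a1 := by
      have := hr.1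
      rwa [div_le_iff₀ ha1] at this
    nlinarith [mul_le_mul_of_nonneg_left h3 (sub_nonneg.2 hb)]
  have hb1 : 0 ≤ b1 := hb0.le.trans hb
  have h3 : b0 / a1 ≤ b1 / a0 := by gcongr
  calc _ ≤ _ := by exact_mod_cast Finset.card_le_card hsub
    _ ≤ _ := h1
    _ ≤ _ := Finset.sum_le_card_nsmul _ _ _ h2
    _ ≤ _ := by
      rw [nsmul_eq_mul]
      have := card_ico (s := b0 / a1) (by positivity) h3
      have h4 : 0 ≤ 1 + (b1 - b0) * a1 / b0 := by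
        have := sub_nonneg.2 hb
        positivity
      gcongr

lemma succ_rpow {A x : ℝ} (hA : A ≤ 2) (hx : 1 ≤ x) : (x + 1) ^ A ≤ x ^ A * (1 + 3 / x) := by
  have hx0 : 0 < x := by linarith
  have e : x + 1 = x * (1 + 1 / x) := by field_simp
  rw [e, Real.mul_rpow hx0.le (by positivity)]
  gcongr
  have h1 : (1 + 1 / x) ^ A ≤ (1 + 1 / x) ^ (2 : ℝ) :=
    Real.rpow_le_rpow_of_exponent_le (by have : 0 < 1 / x := by positivity
                                         linarith) hA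
  refine h1.trans ?_
  rw [Real.rpow_two]
  have h2 : 1 / x ≤ 1 := by rw [div_le_one hx0]; exact hx
  have h3 : 0 < 1 / x := by positivity
  have h4 : 3 / x = 3 * (1 / x) := by ring
  rw [h4]; nlinarith

/-- the numerical heart -/
lemma heart {x c T S H W : ℝ} {a1 b1 : ℝ} (hx : 1 ≤ x) (hc : x ≤ c) (hT : T = x * H) (hH : 0 < H)
    (hS : 0 < S) (ha1 : T ≤ a1) (ha : a1 ≤ T * (1 + 3 / x)) (hb1 : S ≤ b1)
    (hb : b1 ≤ S * (1 + 3 / c)) (hW : 0 < W)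
    (h1 : W ≤ H) (h2 : W * x ≤ 2 * c) (h3 : S * x ^ 2 ≤ T * c ^ 2)
    (h4 : W * c ^ 2 ≤ 16 * H * x ^ 3) (h5 : W * c ≤ 4 * x ^ 2) :
    (1 + (b1 / T - S / a1)) * (1 + (b1 - S) * a1 / S) ≤ 409 * H / W := by
  have hx0 : 0 < x := by linarith
  have hc0 : 0 < c := by linarith
  have hT0 : 0 < T := by rw [hT]; positivity
  have ha0 : 0 < a1 := by linarith
  have h3x : 3 / x ≤ 3 := by rw [div_le_iff₀ hx0]; linarith
  have h3c : 3 / c ≤ 3 / x := by gcongr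
  have e1 : b1 / T - S / a1 ≤ 6 * (c ^ 2 / x ^ 3) := by
    have k1 : b1 / T ≤ S / T * (1 + 3 / x) := by
      rw [div_mul_eq_mul_div]
      gcongr
      exact hb.trans (by gcongr)
    have k2 : S / T * (1 - 3 / x) ≤ S / a1 := by
      rw [le_div_iff₀ ha0]
      have : (1 - 3 / x) * a1 ≤ T := by
        by_cases h : 0 ≤ 1 - 3 / x
        · have h' : (1 - 3 / x) * a1 ≤ (1 - 3 / x) * (T * (1 + 3 / x)) := by gcongr
          have : 0 ≤ T * (3 / x) ^ 2 := by positivity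
          nlinarith
        · have : (1 - 3 / x) * a1 ≤ 0 := mul_nonpos_of_nonpos_of_nonneg (not_le.1 h).le ha0.le
          linarith
      calc S / T * (1 - 3 / x) * a1 = S / T * ((1 - 3 / x) * a1) := by ring
        _ ≤ S / T * T := by gcongr
        _ = S := by field_simp
    have k3 : S / T ≤ c ^ 2 / x ^ 2 := by
      rw [div_le_div_iff₀ hT0 (by positivity)]; linarith
    calc b1 / T - S / a1 ≤ S / T * (1 + 3 / x) - S / T * (1 - 3 / x) := by linarith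
      _ = S / T * (6 / x) := by ring
      _ ≤ c ^ 2 / x ^ 2 * (6 / x) := by gcongr
      _ = 6 * (c ^ 2 / x ^ 3) := by field_simp
  have e2 : (b1 - S) * a1 / S ≤ 12 * (x * H / c) := by
    have k1 : b1 - S ≤ S * (3 / c) := by linarith
    have k2 : a1 ≤ 4 * T := by nlinarith
    calc (b1 - S) * a1 / S ≤ S * (3 / c) * (4 * T) / S := by gcongr
      _ = 12 * (x * H / c) := by rw [hT]; field_simp; ring
  have e0 : 0 ≤ 1 + (b1 - S) * a1 / S := by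
    have := sub_nonneg.2 hb1
    positivity
  have f1 : 1 ≤ H / W := by rw [le_div_iff₀ hW]; linarith
  have f2 : c ^ 2 / x ^ 3 ≤ 16 * (H / W) := by
    rw [← mul_div_assoc, div_le_div_iff₀ (by positivity) hW]; linarith
  have f3 : x * H / c ≤ 2 * (H / W) := by
    rw [← mul_div_assoc, div_le_div_iff₀ hc0 hW]; nlinarith
  have f4 : c ^ 2 / x ^ 3 * (x * H / c) ≤ 4 * (H / W) := by
    have : c ^ 2 / x ^ 3 * (x * H / c) = c * H / x ^ 2 := by field_simp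
    rw [this, ← mul_div_assoc, div_le_div_iff₀ (by positivity) hW]; nlinarith
  calc _ ≤ (1 + 6 * (c ^ 2 / x ^ 3)) * (1 + 12 * (x * H / c)) := by gcongr
    _ = 1 + 6 * (c ^ 2 / x ^ 3) + 12 * (x * H / c) + 72 * (c ^ 2 / x ^ 3 * (x * H / c)) := by ring
    _ ≤ 409 * (H / W) := by linarith
    _ = 409 * H / W := by ring

lemma c_bound {κ : ℝ} (hκ : 0 < κ) (hκ' : κ ≤ 1 / 100) {c i : ℕ} (h : kk κ c ≤ i) :
    (c : ℝ) ≤ ((i : ℝ) + 1) ^ (2 - 3 * κ) := by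
  have h1 : (c : ℝ) ^ (1 / 2 + κ) < i + 1 := by
    have := Nat.lt_floor_add_one ((c : ℝ) ^ (1 / 2 + κ))
    have h2 : ((kk κ c : ℕ) : ℝ) ≤ i := by exact_mod_cast h
    unfold kk at h2
    linarith
  rcases Nat.eq_zero_or_pos c with rfl | hc
  · simp only [Nat.cast_zero]; positivity
  have hc1 : (1 : ℝ) ≤ c := by exact_mod_cast hc
  calc (c : ℝ) = (c : ℝ) ^ (1 : ℝ) := (Real.rpow_one _).symm
    _ ≤ (c : ℝ) ^ ((1 / 2 + κ) * (2 - 3 * κ)) :=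
      Real.rpow_le_rpow_of_exponent_le hc1 (by nlinarith)
    _ = ((c : ℝ) ^ (1 / 2 + κ)) ^ (2 - 3 * κ) := Real.rpow_mul (by positivity) _ _
    _ ≤ _ := Real.rpow_le_rpow (by positivity) h1.le (by linarith)

open Classical in
lemma one_c {A κ lam : ℝ} (hκ : 0 < κ) (hκ' : κ ≤ 1 / 100) (hA : 2 - κ / 100 ≤ A) (hA' : A < 2)
    (hl : 0 < lam) (hl' : lam ≤ κ / 200) {i c : ℕ} (hi : 1 ≤ i) (hk : kk κ c ≤ i) :
    (((B A i).filter (fun p => ∃ r : ℕ, (i : ℝ) ^ (100 * lam) < (r : ℝ) ∧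
      r * p ∈ B A c)).card : ℝ) ≤ 409 * HH A i / (i : ℝ) ^ (50 * lam) := by
  have hx : (1 : ℝ) ≤ i := by exact_mod_cast hi
  have hx0 : (0 : ℝ) < i := by linarith
  have hH : 0 < HH A i := by unfold HH; positivity
  rcases ((B A i).filter (fun p => ∃ r : ℕ, (i : ℝ) ^ (100 * lam) < (r : ℝ) ∧
      r * p ∈ B A c)).eq_empty_or_nonempty with h | ⟨p, hp⟩
  · rw [h]; simp only [Finset.card_empty, Nat.cast_zero]; positivity
  obtain ⟨hp1, r, hr1, hr2⟩ := Finset.mem_filter.1 hp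
  unfold B tt at hp1 hr2
  rw [mem_ico] at hp1 hr2
  push_cast at hp1 hr2
  have hA0 : 0 < A := by linarith
  have hT0 : 0 < (i : ℝ) ^ A := by positivity
  have hR : 1 ≤ (i : ℝ) ^ (100 * lam) := Real.one_le_rpow hx (by linarith)
  have hrp : (r : ℝ) * (i : ℝ) ^ A < ((c : ℝ) + 1) ^ A :=
    lt_of_le_of_lt (mul_le_mul_of_nonneg_left hp1.1 (Nat.cast_nonneg r)) hr2.2
  have hci : (i : ℝ) ≤ c := by
    have h1 : (i : ℝ) ^ A < ((c : ℝ) + 1) ^ A := by nlinarith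
    have h2 := (Real.rpow_lt_rpow_iff hx0.le (by positivity) hA0).1 h1
    have h3 : i < c + 1 := by exact_mod_cast h2
    exact_mod_cast Nat.lt_succ_iff.1 h3
  have hc1 : (1 : ℝ) ≤ c := hx.trans hci
  have hc0 : (0 : ℝ) < c := by linarith
  have hS0 : 0 < (c : ℝ) ^ A := by positivity
  have hT : (i : ℝ) ^ A = i * HH A i := by
    unfold HH
    rw [Real.rpow_sub_one hx0.ne']; field_simp
  have h3 : (c : ℝ) ^ A * (i : ℝ) ^ 2 ≤ (i : ℝ) ^ A * (c : ℝ) ^ 2 := by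
    have k1 : ((c : ℝ) / i) ^ A ≤ ((c : ℝ) / i) ^ (2 : ℝ) :=
      Real.rpow_le_rpow_of_exponent_le (by rw [le_div_iff₀ hx0]; linarith) hA'.le
    rw [Real.div_rpow hc0.le hx0.le, Real.rpow_two, div_pow,
      div_le_div_iff₀ hT0 (by positivity)] at k1
    linarith
  have hb := succ_rpow hA'.le hc1
  have hW : 0 < (i : ℝ) ^ (50 * lam) := by positivity
  have hW2 : ((i : ℝ) ^ (50 * lam)) ^ 2 = (i : ℝ) ^ (100 * lam) := by
    rw [← Real.rpow_two, ← Real.rpow_mul hx0.le]; congr 1; ring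
  have hcb : (c : ℝ) * (i : ℝ) ^ (3 * κ) ≤ 4 * (i : ℝ) ^ 2 := by
    have k1 := c_bound hκ hκ' hk
    have k2 : ((i : ℝ) + 1) ^ (2 - 3 * κ) ≤ (2 * (i : ℝ)) ^ (2 - 3 * κ) :=
      Real.rpow_le_rpow (by positivity) (by linarith) (by linarith)
    rw [Real.mul_rpow (by norm_num) hx0.le] at k2
    have k3 : (2 : ℝ) ^ (2 - 3 * κ) ≤ 4 := by
      have : (2 : ℝ) ^ (2 - 3 * κ) ≤ (2 : ℝ) ^ (2 : ℝ) :=
        Real.rpow_le_rpow_of_exponent_le (by norm_num) (by linarith)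
      rw [Real.rpow_two] at this; linarith
    have k4 : (i : ℝ) ^ (2 - 3 * κ) * (i : ℝ) ^ (3 * κ) = (i : ℝ) ^ 2 := by
      rw [← Real.rpow_add hx0, ← Real.rpow_two]; congr 1; ring
    calc (c : ℝ) * (i : ℝ) ^ (3 * κ) ≤ (4 * (i : ℝ) ^ (2 - 3 * κ)) * (i : ℝ) ^ (3 * κ) := by
          gcongr
          exact k1.trans (k2.trans (by gcongr))
      _ = 4 * (i : ℝ) ^ 2 := by rw [mul_assoc, k4]
  have hWκ : (i : ℝ) ^ (50 * lam) ≤ (i : ℝ) ^ (3 * κ) :=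
    Real.rpow_le_rpow_of_exponent_le hx (by linarith)
  refine le_trans ?_ (heart (x := i) (c := c) (T := (i : ℝ) ^ A) (S := (c : ℝ) ^ A) (H := HH A i)
    (W := (i : ℝ) ^ (50 * lam)) (a1 := ((i : ℝ) + 1) ^ A) (b1 := ((c : ℝ) + 1) ^ A) hx hci hT hH hS0
    (Real.rpow_le_rpow hx0.le (by linarith) hA0.le) (succ_rpow hA'.le hx)
    (Real.rpow_le_rpow hc0.le (by linarith) hA0.le) hb hW ?_ ?_ h3 ?_ ?_)
  · refine le_trans ?_ (count_le hT0 (Real.rpow_le_rpow hx0.le (by linarith) hA0.le) hS0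
      (Real.rpow_le_rpow hc0.le (by linarith) hA0.le))
    have : (B A i).filter (fun p => ∃ r : ℕ, (i : ℝ) ^ (100 * lam) < (r : ℝ) ∧
      r * p ∈ B A c) ⊆ (Finset.Ico ⌈(i : ℝ) ^ A⌉₊ ⌈((i : ℝ) + 1) ^ A⌉₊).filter
      (fun p => ∃ r : ℕ, r * p ∈ Finset.Ico ⌈(c : ℝ) ^ A⌉₊ ⌈((c : ℝ) + 1) ^ A⌉₊) := by
      intro q hq
      obtain ⟨hq1, s, _, hs⟩ := Finset.mem_filter.1 hq
      unfold B tt at hq1 hs
      push_cast at hq1 hs
      exact Finset.mem_filter.2 ⟨hq1, s, hs⟩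
    exact Nat.cast_le.2 (Finset.card_le_card this)
  · unfold HH
    exact Real.rpow_le_rpow_of_exponent_le hx (by linarith)
  · have k1 : 3 / (c : ℝ) ≤ 3 := by rw [div_le_iff₀ hc0]; linarith
    have k2 : (i : ℝ) ^ (100 * lam) * (i : ℝ) ^ A ≤ 4 * (c : ℝ) ^ A := by nlinarith
    have k3 : ((i : ℝ) ^ (50 * lam) * i) ^ 2 * (i : ℝ) ^ A ≤ (2 * (c : ℝ)) ^ 2 * (i : ℝ) ^ A := by
      rw [mul_pow, hW2]
      have : 0 ≤ (i : ℝ) ^ 2 := by positivity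
      nlinarith
    have k4 := le_of_mul_le_mul_right k3 hT0
    exact (pow_le_pow_iff_left₀ (by positivity) (by positivity) two_ne_zero).1 k4
  · have k1 : (i : ℝ) ^ (50 * lam) * (i : ℝ) ≤ HH A i * ((i : ℝ) ^ (3 * κ)) ^ 2 := by
      unfold HH
      rw [← Real.rpow_add_one hx0.ne', ← Real.rpow_two, ← Real.rpow_mul hx0.le,
        ← Real.rpow_add hx0]
      exact Real.rpow_le_rpow_of_exponent_le hx (by linarith)
    have k0 : 0 < (i : ℝ) ^ (3 * κ) := by positivity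
    have k2 : ((c : ℝ) * (i : ℝ) ^ (3 * κ)) ^ 2 ≤ (4 * (i : ℝ) ^ 2) ^ 2 := by gcongr
    have k3 : ((i : ℝ) ^ (50 * lam) * (c : ℝ) ^ 2) * i ≤ (16 * HH A i * (i : ℝ) ^ 3) * i := by
      calc ((i : ℝ) ^ (50 * lam) * (c : ℝ) ^ 2) * i
          = ((i : ℝ) ^ (50 * lam) * i) * (c : ℝ) ^ 2 := by ring
        _ ≤ (HH A i * ((i : ℝ) ^ (3 * κ)) ^ 2) * (c : ℝ) ^ 2 := by gcongr
        _ = HH A i * ((c : ℝ) * (i : ℝ) ^ (3 * κ)) ^ 2 := by ring
        _ ≤ HH A i * (4 * (i : ℝ) ^ 2) ^ 2 := by gcongr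
        _ = _ := by ring
    exact le_of_mul_le_mul_right k3 hx0
  · calc (i : ℝ) ^ (50 * lam) * c ≤ (i : ℝ) ^ (3 * κ) * c := by gcongr
      _ ≤ _ := by linarith

theorem famD : Pool.Agent.H392Z.MO.S_FamD := by
  classical
  intro A κ lam CM M hκ hκ' hA hA' hl hl' hCM hM θ hθ
  have hlim : Tendsto (fun i : ℕ => Real.log i / (i : ℝ) ^ (10 * lam)) atTop (𝓝 0) :=
    ((isLittleO_log_rpow_atTop (by linarith : 0 < 10 * lam)).tendsto_div_nhds_zero).comp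
      tendsto_natCast_atTop_atTop
  have hev := hlim.eventually (gt_mem_nhds (show 0 < θ / (818 * CM) by positivity))
  obtain ⟨i₀, hi₀⟩ := eventually_atTop.1 hev
  refine ⟨max i₀ 2, fun i hi => ?_⟩
  have hi2 : 2 ≤ i := le_of_max_le_right hi
  have hx : (2 : ℝ) ≤ i := by exact_mod_cast hi2
  have hx0 : (0 : ℝ) < i := by linarith
  have hlog : 0 < Real.log i := Real.log_pos (by linarith)
  have hH : 0 < HH A i := by unfold HH; positivity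
  have hsub : (B A i).filter (fun p => ∃ c ∈ M, ∃ r : ℕ, (i : ℝ) ^ (100 * lam) < (r : ℝ) ∧
          r * p ∈ B A c ∧ kk κ c ≤ i) ⊆
      (((Finset.range ((i + 1) ^ 2 + 1)).filter (fun c => c ∈ M)).filter
        (fun c => kk κ c ≤ i)).biUnion (fun c => (B A i).filter
          (fun p => ∃ r : ℕ, (i : ℝ) ^ (100 * lam) < (r : ℝ) ∧ r * p ∈ B A c)) := by
    intro p hp
    obtain ⟨hp1, c, hc, r, hr1, hr2, hk⟩ := Finset.mem_filter.1 hp
    refine Finset.mem_biUnion.2 ⟨c, ?_, Finset.mem_filter.2 ⟨hp1, r, hr1, hr2⟩⟩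
    refine Finset.mem_filter.2 ⟨Finset.mem_filter.2 ⟨?_, hc⟩, hk⟩
    have k1 := c_bound hκ hκ' hk
    have k2 : ((i : ℝ) + 1) ^ (2 - 3 * κ) ≤ ((i : ℝ) + 1) ^ (2 : ℝ) :=
      Real.rpow_le_rpow_of_exponent_le (by linarith) (by linarith)
    rw [Real.rpow_two] at k2
    have k3 : c ≤ (i + 1) ^ 2 := by exact_mod_cast k1.trans k2
    exact Finset.mem_range.2 (by omega)
  have hcard : ((((Finset.range ((i + 1) ^ 2 + 1)).filter (fun c => c ∈ M)).filter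
        (fun c => kk κ c ≤ i)).card : ℝ) ≤ 2 * CM * (i : ℝ) ^ (40 * lam) := by
    have k1 := hM ((i + 1) ^ 2) (Nat.one_le_pow _ _ (by omega))
    have k2 : ((((i + 1) ^ 2 : ℕ) : ℝ)) ^ (20 * lam) ≤ 2 * (i : ℝ) ^ (40 * lam) := by
      push_cast
      rw [← Real.rpow_two, ← Real.rpow_mul (by positivity)]
      have k3 : ((i : ℝ) + 1) ^ (2 * (20 * lam)) ≤ (2 * (i : ℝ)) ^ (2 * (20 * lam)) :=
        Real.rpow_le_rpow (by positivity) (by linarith) (by linarith)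
      rw [Real.mul_rpow (by norm_num) hx0.le] at k3
      have k4 : (2 : ℝ) ^ (2 * (20 * lam)) ≤ (2 : ℝ) ^ (1 : ℝ) :=
        Real.rpow_le_rpow_of_exponent_le (by norm_num) (by linarith)
      rw [Real.rpow_one] at k4
      rw [show 40 * lam = 2 * (20 * lam) by ring]
      exact k3.trans (by gcongr)
    calc _ ≤ (((Finset.range ((i + 1) ^ 2 + 1)).filter (fun c => c ∈ M)).card : ℝ) := by
          exact_mod_cast Finset.card_filter_le _ _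
      _ ≤ CM * (2 * (i : ℝ) ^ (40 * lam)) := by
          refine le_trans (le_of_eq ?_) (k1.trans (by gcongr))
          congr
      _ = _ := by ring
  have hW : (i : ℝ) ^ (50 * lam) = (i : ℝ) ^ (40 * lam) * (i : ℝ) ^ (10 * lam) := by
    rw [← Real.rpow_add hx0]; congr 1; ring
  have h40 : 0 < (i : ℝ) ^ (40 * lam) := by positivity
  have h10 : 0 < (i : ℝ) ^ (10 * lam) := by positivity
  have hfin := hi₀ i (le_of_max_le_left hi)
  rw [div_lt_div_iff₀ h10 (by positivity)] at hfin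
  calc _ ≤ _ := Nat.cast_le.2 (Finset.card_le_card hsub)
    _ ≤ ∑ c ∈ (((Finset.range ((i + 1) ^ 2 + 1)).filter (fun c => c ∈ M)).filter
        (fun c => kk κ c ≤ i)), (((B A i).filter
          (fun p => ∃ r : ℕ, (i : ℝ) ^ (100 * lam) < (r : ℝ) ∧ r * p ∈ B A c)).card : ℝ) := by
      exact_mod_cast Finset.card_biUnion_le
    _ ≤ _ := Finset.sum_le_card_nsmul _ _ (409 * HH A i / (i : ℝ) ^ (50 * lam)) (fun c hc =>
      one_c hκ hκ' hA hA' hl hl' (by omega) (Finset.mem_filter.1 hc).2)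
    _ ≤ 2 * CM * (i : ℝ) ^ (40 * lam) * (409 * HH A i / (i : ℝ) ^ (50 * lam)) := by
      rw [nsmul_eq_mul]; gcongr
    _ = 818 * CM * HH A i / (i : ℝ) ^ (10 * lam) := by rw [hW]; field_simp; ring
    _ ≤ θ * HH A i / Real.log i := by
      rw [div_le_div_iff₀ h10 hlog]
      nlinarith

end Pool.Agent.H948Z.FamD
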