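import Pool.Agent.H39Z.SSS.Spec
import Pool.Agent.Helper150.Lattice

/-! The Vandermonde bound and the nonnegativity of the smoothed energy. -/

set_option autoImplicit false

namespace Pool.Agent.H948Z.SerreHelp

open MeasureTheory Polynomial Set Matrix Pool.Agent.H39Z.SSS

theorem S_zero (δ : ℝ) : S δ 0 = Real.log δ := by
  unfold S
  rw [zero_pow two_ne_zero, zero_add, Real.log_pow]
  push_cast
  ring

theorem S_neg (δ t : ℝ) : S δ (-t) = S δ t := by
  unfold S
  rw [neg_sq]

theorem log_le_S (δ t : ℝ) (ht : t ≠ 0) : Real.log |t| ≤ S δ t := by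
  unfold S
  have h1 : Real.log (t ^ 2) ≤ Real.log (t ^ 2 + δ ^ 2) :=
    Real.log_le_log (by positivity) (by nlinarith [sq_nonneg δ])
  rw [Real.log_pow] at h1
  rw [Real.log_abs]
  push_cast at h1
  linarith

theorem S_mono (δ a b : ℝ) (hδ : 0 < δ) (h : |a| ≤ b) : S δ a ≤ S δ b := by
  unfold S
  have h2 : a ^ 2 ≤ b ^ 2 := by
    rw [← sq_abs a]
    exact pow_le_pow_left₀ (abs_nonneg a) h 2
  have : Real.log (a ^ 2 + δ ^ 2) ≤ Real.log (b ^ 2 + δ ^ 2) :=
    Real.log_le_log (by positivity) (by linarith)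
  linarith

theorem S_abs_le (δ t B : ℝ) (hδ : 0 < δ) (h : |t| ≤ B) :
    |S δ t| ≤ |Real.log δ| + |S δ B| := by
  have h1 : S δ t ≤ S δ B := S_mono δ t B hδ h
  have h2 : Real.log δ ≤ S δ t := by
    rw [← S_zero δ]
    have := S_mono δ 0 |t| hδ (by simp)
    have h3 : S δ |t| = S δ t := by
      unfold S
      rw [sq_abs]
    linarith
  rw [abs_le]
  constructor
  · linarith [neg_abs_le (Real.log δ), abs_nonneg (S δ B)]
  · linarith [le_abs_self (S δ B), abs_nonneg (Real.log δ)]

theorem S_cont (δ : ℝ) (hδ : 0 < δ) : Continuous (S δ) := by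
  unfold S
  refine Continuous.div_const (Continuous.log (by fun_prop) fun t => ?_) 2
  positivity

theorem vand : S_VAND := by
  intro k x δ hδ hdet
  have hinj : Function.Injective x := Matrix.det_vandermonde_ne_zero_iff.mp hdet
  have h1 : Real.log |(Matrix.vandermonde x).det| =
      ∑ i, ∑ j ∈ Finset.Ioi i, Real.log |x j - x i| := by
    rw [Matrix.det_vandermonde, Real.log_abs, Real.log_prod]
    · refine Finset.sum_congr rfl fun i _ => ?_
      rw [Real.log_prod]
      · exact Finset.sum_congr rfl fun j _ => (Real.log_abs _).symm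
      · intro j hj
        exact sub_ne_zero.mpr fun h => (Finset.mem_Ioi.mp hj).ne' (hinj h)
    · intro i _
      refine Finset.prod_ne_zero_iff.mpr fun j hj => ?_
      exact sub_ne_zero.mpr fun h => (Finset.mem_Ioi.mp hj).ne' (hinj h)
  have h2 : ∑ i, ∑ j, S δ (x i - x j) =
      ∑ i, (S δ 0 + ∑ j ∈ ({i} : Finset (Fin k))ᶜ, S δ (x i - x j)) := by
    refine Finset.sum_congr rfl fun i _ => ?_
    rw [← Finset.sum_add_sum_compl ({i} : Finset (Fin k)), Finset.sum_singleton, sub_self]
  have h3 := Finset.sum_sum_Ioi_add_eq_sum_sum_off_diag (fun j i : Fin k => S δ (x i - x j))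
  rw [h2, Finset.sum_add_distrib, ← h3, h1, S_zero, Finset.sum_const, Finset.card_univ,
    Fintype.card_fin, nsmul_eq_mul, Finset.mul_sum]
  have h4 : ∑ i, 2 * ∑ j ∈ Finset.Ioi i, Real.log |x j - x i| ≤
      ∑ i, ∑ j ∈ Finset.Ioi i, (S δ (x i - x j) + S δ (x j - x i)) := by
    refine Finset.sum_le_sum fun i _ => ?_
    rw [Finset.mul_sum]
    refine Finset.sum_le_sum fun j hj => ?_
    have hne : x j - x i ≠ 0 := sub_ne_zero.mpr fun h => (Finset.mem_Ioi.mp hj).ne' (hinj h)
    have a1 := log_le_S δ _ hne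
    have a2 : S δ (x i - x j) = S δ (x j - x i) := by
      rw [← S_neg, neg_sub]
    linarith
  linarith

/-- The smoothed potential. -/
noncomputable def pot (μ : Measure ℝ) (δ y : ℝ) : ℝ := ∫ x, S δ (x - y) ∂μ

theorem pot_cont (μ : Measure ℝ) [IsProbabilityMeasure μ] (R δ : ℝ) (hδ : 0 < δ)
    (hs : Supp μ R) : Continuous (pot μ δ) := by
  rw [continuous_iff_continuousAt]
  intro y₀
  unfold pot
  refine continuousAt_of_dominated
    (bound := fun _ => |Real.log δ| + |S δ (R + (|y₀| + 1))|) ?_ ?_ (integrable_const _) ?_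
  · refine Filter.Eventually.of_forall fun y => ?_
    exact ((S_cont δ hδ).comp (continuous_id.sub continuous_const)).aestronglyMeasurable
  · filter_upwards [Metric.ball_mem_nhds y₀ one_pos] with y hy
    filter_upwards [hs] with x hx
    rw [Real.norm_eq_abs]
    refine S_abs_le δ _ _ hδ ?_
    rw [Metric.mem_ball, Real.dist_eq, abs_lt] at hy
    rw [abs_le]
    constructor
    · linarith [hx.1, hx.2, le_abs_self y₀]
    · linarith [hx.1, hx.2, neg_abs_le y₀]
  · refine Filter.Eventually.of_forall fun x => ?_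
    exact ((S_cont δ hδ).comp (continuous_const.sub continuous_id)).continuousAt

theorem integrable_of_cont (μ : Measure ℝ) [IsProbabilityMeasure μ] (R : ℝ) (hs : Supp μ R)
    (f : ℝ → ℝ) (hf : Continuous f) : Integrable f μ := by
  obtain ⟨C, hC⟩ := (isCompact_Icc (a := (0 : ℝ)) (b := R)).exists_bound_of_continuousOn
    hf.continuousOn
  refine Integrable.of_bound hf.aestronglyMeasurable C ?_
  filter_upwards [hs] with x hx
  exact hC x hx

theorem K_real (δ a b : ℝ) : K δ (a : ℂ) (b : ℂ) = S δ (a - b) := by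
  unfold K S
  simp

/-- Weighted Fekete points and an integer polynomial that is small in the weighted norm. -/
theorem fekete (R : ℝ) (hR : 0 < R) (W : ℝ → ℝ) (hW : Continuous W) (n : ℕ) (hn : 0 < n) :
    ∃ (x : Fin n → ℝ) (Q : ℤ[X]), (Matrix.vandermonde x).det ≠ 0 ∧ Q ≠ 0 ∧
      ∀ y ∈ Icc 0 R, |aeval y Q| ≤
        n * Real.exp ((Real.log |(Matrix.vandermonde x).det| - ∑ i, W (x i)) / n + 1 + W y) := by
  classical
  have hnR : (0 : ℝ) < n := by exact_mod_cast hn
  let Φ : (Fin n → ℝ) → ℝ := fun x =>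
    |(Matrix.vandermonde x).det| * Real.exp (-∑ i, W (x i))
  have hΦ : Continuous Φ := by
    refine Continuous.mul (Continuous.abs (Continuous.matrix_det ?_)) (by fun_prop)
    refine continuous_matrix fun i j => ?_
    simp only [Matrix.vandermonde_apply]
    fun_prop
  have hc : IsCompact (Set.pi univ fun _ : Fin n => Icc (0 : ℝ) R) :=
    isCompact_univ_pi fun _ => isCompact_Icc
  let x₀ : Fin n → ℝ := fun i => R * (i : ℕ) / n
  have hx₀ : x₀ ∈ Set.pi univ fun _ : Fin n => Icc (0 : ℝ) R := by
    intro i _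
    have hi : ((i : ℕ) : ℝ) ≤ n := by exact_mod_cast i.2.le
    refine ⟨by positivity, ?_⟩
    show R * (i : ℕ) / n ≤ R
    rw [div_le_iff₀ hnR]
    exact mul_le_mul_of_nonneg_left hi hR.le
  have hx₀inj : Function.Injective x₀ := by
    intro i j hij
    have h1 : R * (i : ℕ) / n = R * (j : ℕ) / n := hij
    rw [div_left_inj' hnR.ne', mul_right_inj' hR.ne'] at h1
    exact Fin.ext (by exact_mod_cast h1)
  obtain ⟨x, hx, hmax⟩ := hc.exists_isMaxOn ⟨x₀, hx₀⟩ hΦ.continuousOn
  have hpos : 0 < Φ x := by
    refine lt_of_lt_of_le ?_ (hmax hx₀)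
    exact mul_pos (abs_pos.mpr (Matrix.det_vandermonde_ne_zero_iff.mpr hx₀inj)) (Real.exp_pos _)
  have hdet : (Matrix.vandermonde x).det ≠ 0 := by
    intro h
    simp only [Φ, h, abs_zero, zero_mul] at hpos
    exact lt_irrefl _ hpos
  have hdpos : 0 < |(Matrix.vandermonde x).det| := abs_pos.mpr hdet
  set τ : ℝ := (Real.log |(Matrix.vandermonde x).det| - ∑ i, W (x i)) / n + 1 with hτ
  obtain ⟨k, hk0, hk⟩ := Pool.Agent.Helper150.Lattice.linear_forms (Matrix.vandermonde x) hdet
    (fun j => Real.exp (τ + W (x j))) (fun j => Real.exp_pos _) (by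
      rw [← Real.exp_sum, Finset.sum_add_distrib, Finset.sum_const, Finset.card_univ,
        Fintype.card_fin, nsmul_eq_mul, hτ, mul_add, mul_div_cancel₀ _ hnR.ne',
        ← Real.log_lt_iff_lt_exp hdpos]
      linarith)
  refine ⟨x, ∑ i : Fin n, monomial (i : ℕ) (k i), hdet, ?_, ?_⟩
  · intro h
    apply hk0
    funext i
    have h1 := congrArg (fun p : ℤ[X] => p.coeff (i : ℕ)) h
    simp only [finsetSum_coeff, coeff_monomial, coeff_zero, Fin.val_inj] at h1
    rw [Finset.sum_ite_eq' Finset.univ i] at h1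
    simpa using h1
  · intro y hy
    let v : Fin n → ℝ := fun j => y ^ (j : ℕ)
    let l : Fin n → ℝ := v ᵥ* (Matrix.vandermonde x)⁻¹
    have hl : l ᵥ* Matrix.vandermonde x = v := by
      simp only [l]
      rw [Matrix.vecMul_vecMul, Matrix.nonsing_inv_mul _ (isUnit_iff_ne_zero.mpr hdet),
        Matrix.vecMul_one]
    have hrow : ∑ m, l m • (Matrix.vandermonde x) m = v := by
      rw [← hl]
      funext j
      simp [Matrix.vecMul, dotProduct, Finset.sum_apply]
    have hli : ∀ i, |l i| * Real.exp (W (x i)) ≤ Real.exp (W y) := by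
      intro i
      have hmem : Function.update x i y ∈ Set.pi univ fun _ : Fin n => Icc (0 : ℝ) R := by
        intro j _
        by_cases hj : j = i
        · subst hj
          rw [Function.update_self]
          exact hy
        · rw [Function.update_of_ne hj]
          exact hx j (mem_univ j)
      have h1 : Φ (Function.update x i y) ≤ Φ x := hmax hmem
      have h2 : Matrix.vandermonde (Function.update x i y) =
          (Matrix.vandermonde x).updateRow i (∑ m, l m • (Matrix.vandermonde x) m) := by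
        rw [hrow]
        ext a b
        by_cases ha : a = i
        · subst ha
          simp [v]
        · simp [Matrix.updateRow_ne ha, Function.update_of_ne ha]
      have h3 : ∑ j, W (Function.update x i y j) = ∑ j, W (x j) - W (x i) + W y := by
        rw [← Finset.add_sum_erase _ _ (Finset.mem_univ i),
          ← Finset.add_sum_erase _ (fun j => W (x j)) (Finset.mem_univ i), Function.update_self]
        have : ∑ j ∈ Finset.univ.erase i, W (Function.update x i y j) =
            ∑ j ∈ Finset.univ.erase i, W (x j) :=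
          Finset.sum_congr rfl fun j hj => by
            rw [Function.update_of_ne (Finset.ne_of_mem_erase hj)]
        rw [this]
        ring
      simp only [Φ] at h1
      rw [h2, Matrix.det_updateRow_sum, h3, smul_eq_mul, abs_mul] at h1
      have h4 : Real.exp (-(∑ j, W (x j) - W (x i) + W y)) * Real.exp (W y) =
          Real.exp (-∑ j, W (x j)) * Real.exp (W (x i)) := by
        rw [← Real.exp_add, ← Real.exp_add]
        congr 1
        ring
      have h5 := mul_le_mul_of_nonneg_right h1 (Real.exp_pos (W y)).le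
      rw [mul_assoc, h4] at h5
      have h6 : 0 < |(Matrix.vandermonde x).det| * Real.exp (-∑ j, W (x j)) :=
        mul_pos hdpos (Real.exp_pos _)
      refine le_of_mul_le_mul_left ?_ h6
      linarith
    have hQ : aeval y (∑ i : Fin n, monomial (i : ℕ) (k i) : ℤ[X]) =
        ∑ m, l m * (Matrix.vandermonde x).mulVec (fun i => (k i : ℝ)) m := by
      have h1 : ∑ m, l m * (Matrix.vandermonde x).mulVec (fun i => (k i : ℝ)) m =
          v ⬝ᵥ fun i => (k i : ℝ) := by
        rw [← hl, ← Matrix.dotProduct_mulVec]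
        rfl
      rw [h1, map_sum]
      simp only [aeval_monomial, dotProduct, v]
      refine Finset.sum_congr rfl fun i _ => ?_
      rw [mul_comm]
      simp
    rw [hQ]
    refine (Finset.abs_sum_le_sum_abs _ _).trans ?_
    have h7 : ∀ m, |l m * (Matrix.vandermonde x).mulVec (fun i => (k i : ℝ)) m| ≤
        Real.exp (τ + W y) := by
      intro m
      rw [abs_mul]
      refine (mul_le_mul_of_nonneg_left (hk m).le (abs_nonneg _)).trans ?_
      rw [Real.exp_add τ, Real.exp_add τ, mul_left_comm]
      exact mul_le_mul_of_nonneg_left (hli m) (Real.exp_pos _).le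
    refine (Finset.sum_le_sum fun m _ => h7 m).trans ?_
    rw [Finset.sum_const, Finset.card_univ, Fintype.card_fin, nsmul_eq_mul]

theorem S_le_of_le (e a b : ℝ) (he : 0 < e) (ha : |a| ≤ b) (hb : e ≤ b) :
    S e a ≤ 1 + Real.log b := by
  have hb0 : 0 < b := lt_of_lt_of_le he hb
  refine (S_mono e a b he ha).trans ?_
  unfold S
  have h1 : Real.log (b ^ 2 + e ^ 2) ≤ Real.log (2 * b ^ 2) :=
    Real.log_le_log (by positivity) (by nlinarith)
  rw [Real.log_mul two_ne_zero (by positivity), Real.log_pow] at h1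
  have h2 : Real.log 2 ≤ 2 - 1 := Real.log_le_sub_one_of_pos two_pos
  push_cast at h1
  linarith

theorem serre (hK : S_KEY) : S_SERRE := by
  intro μ _ R hR hs hA δ hδ
  have hV : Continuous (pot μ δ) := pot_cont μ R δ hδ hs
  have hE : En δ μ μ = ∫ y, pot μ δ y ∂μ := rfl
  obtain ⟨C, hC⟩ := (isCompact_Icc (a := (0 : ℝ)) (b := R)).exists_bound_of_continuousOn
    hV.continuousOn
  have main : ∀ n : ℕ, 0 < n →
      0 ≤ n * En δ μ μ / 2 + Real.log n + (2 - Real.log δ / 2) := by
    intro n hn
    have hnR : (0 : ℝ) < n := by exact_mod_cast hn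
    obtain ⟨x, Q, hdet, hQ0, hQ⟩ := fekete R hR (fun y => n * pot μ δ y)
      (continuous_const.mul hV) n hn
    set τ : ℝ := (Real.log |(Matrix.vandermonde x).det| - ∑ i, n * pot μ δ (x i)) / n + 1
      with hτ
    have he : 0 < n * Real.exp (τ - n * C) := by positivity
    have h1 := hA Q hQ0 _ he
    have h2 : ∫ y, S (n * Real.exp (τ - n * C)) (aeval y Q) ∂μ ≤
        ∫ y, (1 + Real.log n + τ) + n * pot μ δ y ∂μ := by
      refine integral_mono_ae ?_ ?_ ?_
      · exact integrable_of_cont μ R hs _ ((S_cont _ he).comp (Polynomial.continuous_aeval Q))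
      · exact integrable_of_cont μ R hs _ (continuous_const.add (continuous_const.mul hV))
      · filter_upwards [hs] with y hy
        have h3 : n * Real.exp (τ - n * C) ≤ n * Real.exp (τ + n * pot μ δ y) := by
          refine mul_le_mul_of_nonneg_left (Real.exp_le_exp.mpr ?_) hnR.le
          have h4 := hC y hy
          rw [Real.norm_eq_abs, abs_le] at h4
          nlinarith [h4.1]
        have h5 := S_le_of_le _ _ _ he (hQ y hy) h3
        rw [Real.log_mul hnR.ne' (Real.exp_pos _).ne', Real.log_exp] at h5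
        linarith
    rw [integral_add (integrable_const _)
      (integrable_of_cont μ R hs (fun y => n * pot μ δ y) (continuous_const.mul hV)),
      integral_const, integral_const_mul, ← hE] at h2
    simp only [probReal_univ, one_smul] at h2
    have h6 := hK μ R hs (Fin n) Finset.univ (fun _ => 1) (fun i => (x i : ℂ)) δ δ 1
      (fun _ _ => zero_le_one) hδ le_rfl one_pos le_rfl
    simp only [K_real, Finset.sum_const, Finset.card_univ, Fintype.card_fin, nsmul_eq_mul,
      mul_one, one_mul, sub_self, zero_div, sub_zero, zero_mul, add_zero] at h6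
    have h7 := vand n x δ hδ hdet
    have h8 : ∑ i, (n : ℝ) * pot μ δ (x i) = n * ∑ i, ∫ y, S δ (y - x i) ∂μ := by
      rw [Finset.mul_sum]
      rfl
    have h9 : τ ≤ 1 - n * En δ μ μ / 2 - Real.log δ / 2 := by
      rw [hτ, h8]
      have : (Real.log |(Matrix.vandermonde x).det| - n * ∑ i, ∫ y, S δ (y - x i) ∂μ) / n ≤
          -(n * En δ μ μ / 2) - Real.log δ / 2 := by
        rw [div_le_iff₀ hnR]
        nlinarith
      linarith
    linarith
  by_contra hneg
  push Not at hneg
  set a : ℝ := -En δ μ μ / 4 with ha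
  have ha0 : 0 < a := by
    rw [ha]
    linarith
  obtain ⟨n, hn⟩ := exists_nat_gt (max 0 ((2 - Real.log δ / 2 - Real.log a) / a))
  have hn0 : (0 : ℝ) < n := lt_of_le_of_lt (le_max_left _ _) hn
  have hn1 : (2 - Real.log δ / 2 - Real.log a) / a < n := lt_of_le_of_lt (le_max_right _ _) hn
  rw [div_lt_iff₀ ha0] at hn1
  have h1 := main n (by exact_mod_cast hn0)
  have h2 : Real.log (n * a) ≤ n * a - 1 := Real.log_le_sub_one_of_pos (mul_pos hn0 ha0)
  rw [Real.log_mul hn0.ne' ha0.ne'] at h2
  have h3 : n * En δ μ μ / 2 = -2 * (n * a) := by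
    rw [ha]
    ring
  linarith

end Pool.Agent.H948Z.SerreHelp
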