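import Mathlib

/-! Zigzag paths in posets, local isometry of lower sets, extension of maps into a fence. -/

namespace Pool.Agent.H948Z.BK

open PartialOrder

/-- one step of the greedy walk on the fence -/
def stp (s : Bool) (t : ℕ) : ℕ :=
  if s then (if t % 2 = 0 then t + 1 else t) else (if t % 2 = 0 then t else t + 1)

def greedy : ℕ → List Bool → ℕ
  | t, [] => t
  | t, s :: w => greedy (stp s t) w

/-- the fence order on the naturals -/
def fle (s t : ℕ) : Prop := s = t ∨ (s % 2 = 0 ∧ (t = s + 1 ∨ s = t + 1))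

lemma stp_mono (s : Bool) {a b : ℕ} (h : a ≤ b) : stp s a ≤ stp s b := by
  unfold stp; split_ifs <;> omega

lemma le_stp (s : Bool) (a : ℕ) : a ≤ stp s a := by
  unfold stp; split_ifs <;> omega

lemma stp_le (s : Bool) (a : ℕ) : stp s a ≤ a + 1 := by
  unfold stp; split_ifs <;> omega

lemma stp_stp (s : Bool) (a : ℕ) : stp s (stp s a) = stp s a := by
  unfold stp; split_ifs <;> omega

lemma greedy_mono (w : List Bool) : ∀ {a b : ℕ}, a ≤ b → greedy a w ≤ greedy b w := by
  induction w with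
  | nil => intro a b h; exact h
  | cons s w ih => intro a b h; exact ih (stp_mono s h)

lemma greedy_append (w₁ w₂ : List Bool) : ∀ t, greedy t (w₁ ++ w₂) = greedy (greedy t w₁) w₂ := by
  induction w₁ with
  | nil => intro t; rfl
  | cons s w ih => intro t; exact ih _

lemma greedy_le (w : List Bool) : ∀ t, greedy t w ≤ t + w.length := by
  induction w with
  | nil => intro t; simp [greedy]
  | cons s w ih =>
    intro t
    have := ih (stp s t)
    have h2 := stp_le s t
    simp only [greedy, List.length_cons]; omega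

def zz : ℕ → List Bool
  | 0 => []
  | r + 1 => true :: false :: zz r

lemma greedy_zz (r : ℕ) : ∀ k, greedy (2 * k) (zz r) = 2 * k + 2 * r := by
  induction r with
  | zero => intro k; rfl
  | succ r ih =>
    intro k
    have : stp false (stp true (2 * k)) = 2 * (k + 1) := by
      unfold stp; simp; omega
    simp only [zz, greedy, this, ih]; omega

lemma word_cases (w : List Bool) :
    (∃ w', w = false :: w') ∨ (∃ w', w = w' ++ [true]) ∨
      (∃ w₁ s w₂, w = w₁ ++ s :: s :: w₂) ∨ ∃ r, w = zz r := by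
  induction' hn : w.length using Nat.strong_induction_on with n ih generalizing w
  match w, hn with
  | [], _ => exact Or.inr (Or.inr (Or.inr ⟨0, rfl⟩))
  | false :: w', _ => exact Or.inl ⟨w', rfl⟩
  | [true], _ => exact Or.inr (Or.inl ⟨[], rfl⟩)
  | true :: true :: w', _ => exact Or.inr (Or.inr (Or.inl ⟨[], true, w', rfl⟩))
  | true :: false :: w', hn =>
    rcases ih w'.length (by simp at hn; omega) w' rfl with ⟨u, rfl⟩ | ⟨u, rfl⟩ | ⟨u, s, v, rfl⟩ | ⟨r, rfl⟩
    · exact Or.inr (Or.inr (Or.inl ⟨[true], false, u, rfl⟩))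
    · exact Or.inr (Or.inl ⟨true :: false :: u, rfl⟩)
    · exact Or.inr (Or.inr (Or.inl ⟨true :: false :: u, s, v, rfl⟩))
    · exact Or.inr (Or.inr (Or.inr ⟨r + 1, rfl⟩))

section
variable {Q : Type} [PartialOrder Q]

def stepR (s : Bool) (a b : Q) : Prop := if s then a ≤ b else b ≤ a

lemma stepR_refl (s : Bool) (a : Q) : stepR s a a := by
  cases s <;> simp [stepR]

lemma stepR_trans {s : Bool} {a b c : Q} (h1 : stepR s a b) (h2 : stepR s b c) : stepR s a c := by
  cases s
  · simp only [stepR, Bool.false_eq_true, if_false] at *; exact h2.trans h1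
  · simp only [stepR, if_true] at *; exact h1.trans h2

def Path (S : Set Q) : List Bool → Q → Q → Prop
  | [], a, b => a ∈ S ∧ a = b
  | s :: w, a, b => a ∈ S ∧ ∃ c, stepR s a c ∧ Path S w c b

lemma Path.left {S : Set Q} {w : List Bool} {a b : Q} (h : Path S w a b) : a ∈ S := by
  cases w <;> exact h.1

lemma path_append {S : Set Q} (w₁ w₂ : List Bool) : ∀ {a b : Q},
    Path S (w₁ ++ w₂) a b ↔ ∃ c, Path S w₁ a c ∧ Path S w₂ c b := by
  induction w₁ with
  | nil =>
    intro a b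
    constructor
    · intro h; exact ⟨a, ⟨h.left, rfl⟩, h⟩
    · rintro ⟨c, ⟨_, rfl⟩, h⟩; exact h
  | cons s w ih =>
    intro a b
    constructor
    · rintro ⟨ha, c, hc, h⟩
      obtain ⟨d, h1, h2⟩ := ih.1 h
      exact ⟨d, ⟨ha, c, hc, h1⟩, h2⟩
    · rintro ⟨d, ⟨ha, c, hc, h1⟩, h2⟩
      exact ⟨ha, c, hc, ih.2 ⟨d, h1, h2⟩⟩

lemma path_single {S : Set Q} {s : Bool} {a b : Q} :
    Path S [s] a b ↔ a ∈ S ∧ b ∈ S ∧ stepR s a b := by
  constructor
  · rintro ⟨ha, c, hc, hc', rfl⟩; exact ⟨ha, hc', hc⟩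
  · rintro ⟨ha, hb, h⟩; exact ⟨ha, b, h, hb, rfl⟩

lemma path_dup {S : Set Q} {s : Bool} {w : List Bool} {a b : Q} :
    Path S (s :: s :: w) a b ↔ Path S (s :: w) a b := by
  constructor
  · rintro ⟨ha, c, hc, _, d, hd, h⟩; exact ⟨ha, d, stepR_trans hc hd, h⟩
  · rintro ⟨ha, d, hd, h⟩; exact ⟨ha, a, stepR_refl s a, ha, d, hd, h⟩

/-- local isometry up to greedy length `N` -/
def Iso (A : Set Q) (N : ℕ) : Prop :=
  ∀ w : List Bool, greedy 0 w < N → ∀ a ∈ A, ∀ b ∈ A, Path Set.univ w a b → Path A w a b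

lemma iso_of_zz {A : Set Q} (hA : IsLowerSet A) {N : ℕ}
    (h : ∀ r, 2 * r < N → ∀ a ∈ A, ∀ b ∈ A, Path Set.univ (zz r) a b → Path A (zz r) a b) :
    Iso A N := by
  intro w
  induction' hn : w.length using Nat.strong_induction_on with n ih generalizing w
  intro hw a ha b hb hp
  rcases word_cases w with ⟨u, rfl⟩ | ⟨u, rfl⟩ | ⟨u, s, v, rfl⟩ | ⟨r, rfl⟩
  · obtain ⟨_, c, hc, hp'⟩ := hp
    have hcA : c ∈ A := hA (by simpa [stepR] using hc) ha
    refine ⟨ha, c, hc, ih u.length (by simp at hn; omega) u rfl ?_ c hcA b hb hp'⟩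
    simpa [greedy, stp] using hw
  · obtain ⟨c, h1, h2⟩ := (path_append _ _).1 hp
    obtain ⟨_, _, hc⟩ := path_single.1 h2
    have hcA : c ∈ A := hA (by simpa [stepR] using hc) hb
    refine (path_append _ _).2 ⟨c, ih u.length (by simp at hn; omega) u rfl ?_ a ha c hcA h1,
      path_single.2 ⟨hcA, hb, hc⟩⟩
    rw [greedy_append] at hw
    exact lt_of_le_of_lt (le_stp true _) hw
  · have e : ∀ S : Set Q, Path S (u ++ s :: s :: v) a b ↔ Path S (u ++ s :: v) a b := by
      intro S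
      simp only [path_append, path_dup]
    rw [e] at hp ⊢
    refine ih (u ++ s :: v).length (by simp at hn ⊢; omega) _ rfl ?_ a ha b hb hp
    rw [greedy_append] at hw ⊢
    simpa only [greedy, stp_stp] using hw
  · refine h r ?_ a ha b hb hp
    have := greedy_zz r 0
    simp only [mul_zero, zero_add] at this
    omega

lemma greedy_dom {A : Set Q} {f : Q → ℕ} (hf : ∀ a ∈ A, ∀ b ∈ A, a ≤ b → fle (f a) (f b))
    (w : List Bool) : ∀ {a b : Q}, Path A w a b → f b ≤ greedy (f a) w := by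
  induction w with
  | nil => rintro a b ⟨_, rfl⟩; exact le_rfl
  | cons s w ih =>
    rintro a b ⟨ha, c, hc, h⟩
    refine (ih h).trans (greedy_mono w ?_)
    cases s
    · have := hf c h.left a ha (by simpa [stepR] using hc)
      unfold fle at this; unfold stp; simp; split_ifs <;> omega
    · have := hf a ha c h.left (by simpa [stepR] using hc)
      unfold fle at this; unfold stp; simp; split_ifs <;> omega

/-- extension of fence valued maps -/
lemma extend {A : Set Q} {N L : ℕ} (hI : Iso A N) (hL : L ≤ N) {f : Q → ℕ}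
    (hf : ∀ a ∈ A, ∀ b ∈ A, a ≤ b → fle (f a) (f b)) (hfL : ∀ a ∈ A, f a ≤ L) :
    ∃ F : Q → ℕ, (∀ p, F p ≤ L) ∧ (∀ p q, p ≤ q → fle (F p) (F q)) ∧ ∀ a ∈ A, F a = f a := by
  let T : Q → Set ℕ := fun p =>
    {t | t = L ∨ ∃ a ∈ A, ∃ w, Path Set.univ w a p ∧ t = greedy (f a) w}
  have hne : ∀ p, (T p).Nonempty := fun p => ⟨L, Or.inl rfl⟩
  have hle : ∀ p, sInf (T p) ≤ L := fun p => Nat.sInf_le (Or.inl rfl)
  have hst : ∀ s p q, stepR s p q → sInf (T q) ≤ stp s (sInf (T p)) := by
    intro s p q hpq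
    rcases Nat.sInf_mem (hne p) with h | ⟨a, ha, w, hw, h⟩
    · rw [h]; exact (hle q).trans (le_stp s L)
    · rw [h]
      refine Nat.sInf_le (Or.inr ⟨a, ha, w ++ [s], (path_append _ _).2
        ⟨p, hw, path_single.2 ⟨trivial, trivial, hpq⟩⟩, ?_⟩)
      rw [greedy_append]; rfl
  refine ⟨fun p => sInf (T p), hle, ?_, ?_⟩
  · intro p q hpq
    beta_reduce
    have h1 := hst true p q (by simpa [stepR] using hpq)
    have h2 := hst false q p (by simpa [stepR] using hpq)
    unfold stp at h1 h2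
    unfold fle
    simp only [if_true, Bool.false_eq_true, if_false] at h1 h2
    split_ifs at h1 h2 <;> omega
  · intro a ha
    beta_reduce
    apply le_antisymm
    · exact Nat.sInf_le (Or.inr ⟨a, ha, [], ⟨trivial, rfl⟩, rfl⟩)
    · rcases Nat.sInf_mem (hne a) with h | ⟨b, hb, w, hw, h⟩
      · rw [h]; exact hfL a ha
      · rw [h]
        by_cases hN : greedy 0 w < N
        · exact greedy_dom hf w (hI w hN b hb a ha hw)
        · have := greedy_mono w (Nat.zero_le (f b))
          have := hfL a ha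
          omega

abbrev Ch (Q : Type) [PartialOrder Q] := NonemptyFiniteChains Q

def sg (x : Q) : Ch Q := ⟨{x}, by simp, by
  rintro ⟨a, ha⟩ ⟨b, hb⟩
  simp only [Finset.mem_singleton] at ha hb
  subst ha; subst hb; exact Or.inl le_rfl⟩

def Comp (a b : Ch Q) : Prop := ∀ x ∈ a.finset, ∀ y ∈ b.finset, x ≤ y ∨ y ≤ x

lemma ch_comp (a : Ch Q) {x y : Q} (hx : x ∈ a.finset) (hy : y ∈ a.finset) : x ≤ y ∨ y ≤ x :=
  a.comparable ⟨x, hx⟩ ⟨y, hy⟩

lemma comp_of_le {a b d : Ch Q} (ha : a ≤ d) (hb : b ≤ d) : Comp a b :=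
  fun _ hx _ hy => ch_comp d (ha hx) (hb hy)

lemma exists_union {a b : Ch Q} (h : Comp a b) :
    ∃ d : Ch Q, ∀ x, x ∈ d.finset ↔ x ∈ a.finset ∨ x ∈ b.finset := by
  classical
  refine ⟨⟨a.finset ∪ b.finset, by simp, ?_⟩, by simp⟩
  rintro ⟨x, hx⟩ ⟨y, hy⟩
  simp only [Finset.mem_union] at hx hy
  rcases hx with hx | hx <;> rcases hy with hy | hy
  · exact ch_comp a hx hy
  · exact h x hx y hy
  · exact (h y hy x hx).symm
  · exact ch_comp b hx hy

def chIn (A : Set Q) : Set (Ch Q) := {c | ∀ x ∈ c.finset, x ∈ A}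

lemma chIn_lower (A : Set Q) : IsLowerSet (chIn A) :=
  fun _ _ h ha x hx => ha x (h hx)

lemma peak {A : Set Q} {a b e : Ch Q} {w : List Bool} (ha : a ∈ chIn A) (h : Comp a b)
    (hp : Path (chIn A) w b e) : Path (chIn A) (true :: false :: w) a e := by
  obtain ⟨d, hd⟩ := exists_union h
  refine ⟨ha, d, ?_, ?_, b, ?_, hp⟩
  · intro x hx; exact (hd x).2 (Or.inl hx)
  · intro x hx
    rcases (hd x).1 hx with h | h
    · exact ha x h
    · exact hp.left x h
  · intro x hx; exact (hd x).2 (Or.inr hx)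

lemma exists_top (a : Ch Q) : ∃ m ∈ a.finset, ∀ x ∈ a.finset, x ≤ m := by
  obtain ⟨m, hm⟩ := a.finset.exists_maximal a.nonempty
  refine ⟨m, hm.1, fun x hx => ?_⟩
  rcases ch_comp a hx hm.1 with h | h
  · exact h
  · exact hm.2 hx h

lemma extract (k : ℕ) : ∀ {c b : Ch Q}, Path Set.univ (zz (k + 1)) c b → ∀ u ∈ c.finset,
    ∃ (w : List Bool) (v : Q), w.length = k ∧ Path Set.univ w u v ∧ Comp (sg v) b := by
  induction k with
  | zero =>
    rintro c b ⟨_, d, hd, _, e, he, _, rfl⟩ u hu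
    refine ⟨[], u, rfl, ⟨trivial, rfl⟩, comp_of_le (d := d) ?_ he⟩
    intro x hx
    simp only [sg, Finset.mem_singleton] at hx
    subst hx; exact hd hu
  | succ k ih =>
    rintro c b ⟨_, d, hd, _, e, he, hp⟩ u hu
    obtain ⟨u', hu'⟩ := e.nonempty
    obtain ⟨w, v, hw, h1, h2⟩ := ih hp u' hu'
    rcases ch_comp d (hd hu) (he hu') with h | h
    · exact ⟨true :: w, v, by simp [hw], ⟨trivial, u', by simpa [stepR] using h, h1⟩, h2⟩
    · exact ⟨false :: w, v, by simp [hw], ⟨trivial, u', by simpa [stepR] using h, h1⟩, h2⟩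

lemma build {A : Set Q} {b : Ch Q} (hb : b ∈ chIn A) (w : List Bool) : ∀ {u v : Q},
    Path A w u v → Comp (sg v) b → Path (chIn A) (zz (w.length + 1)) (sg u) b := by
  induction w with
  | nil =>
    rintro u v ⟨hu, rfl⟩ h
    refine peak ?_ h ⟨hb, rfl⟩
    intro x hx
    simp only [sg, Finset.mem_singleton] at hx
    subst hx; exact hu
  | cons s w ih =>
    rintro u v ⟨hu, u', hs, hp⟩ h
    refine peak (b := sg u') ?_ ?_ (ih hp h)
    · intro x hx
      simp only [sg, Finset.mem_singleton] at hx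
      subst hx; exact hu
    · intro x hx y hy
      simp only [sg, Finset.mem_singleton] at hx hy
      subst hx; subst hy
      cases s
      · exact Or.inr (by simpa [stepR] using hs)
      · exact Or.inl (by simpa [stepR] using hs)

lemma comp_cases {A : Set Q} (hA : IsLowerSet A) {a : Ch Q} (ha : a ∈ chIn A) {u : Q}
    (h : Comp (sg u) a) : u ∈ A ∨ ∃ m ∈ A, m ≤ u ∧ ∀ u', m ≤ u' → Comp (sg u') a := by
  obtain ⟨m, hm, hm'⟩ := exists_top a
  rcases h u (by simp [sg]) m hm with h1 | h1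
  · exact Or.inl (hA h1 (ha m hm))
  · refine Or.inr ⟨m, ha m hm, h1, fun u' hu' x hx y hy => ?_⟩
    simp only [sg, Finset.mem_singleton] at hx
    subst hx
    exact Or.inr ((hm' y hy).trans hu')

lemma middle {A : Set Q} (hA : IsLowerSet A) {N : ℕ} (hI : Iso A N) {a b : Ch Q}
    (ha : a ∈ chIn A) (hb : b ∈ chIn A) {w : List Bool} (hw : w.length + 2 < N) {u v : Q}
    (hp : Path Set.univ w u v) (hu : Comp (sg u) a) (hv : Comp (sg v) b) :
    ∃ u' v', Path A w u' v' ∧ Comp (sg u') a ∧ Comp (sg v') b := by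
  have hlen : ∀ w' : List Bool, w'.length ≤ w.length + 2 → greedy 0 w' < N := by
    intro w' h
    have := greedy_le w' 0
    omega
  rcases comp_cases hA ha hu with h1 | ⟨m, hm, h1, h1'⟩ <;>
    rcases comp_cases hA hb hv with h2 | ⟨n, hn, h2, h2'⟩
  · exact ⟨u, v, hI w (hlen w (by omega)) u h1 v h2 hp, hu, hv⟩
  · have := hI (w ++ [false]) (hlen _ (by simp)) u h1 n hn
      ((path_append _ _).2 ⟨v, hp, path_single.2 ⟨trivial, trivial, by simpa [stepR] using h2⟩⟩)
    obtain ⟨v', h3, h4⟩ := (path_append _ _).1 this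
    exact ⟨u, v', h3, hu, h2' v' (by simpa [stepR] using (path_single.1 h4).2.2)⟩
  · obtain ⟨_, u', h3, h4⟩ := hI (true :: w) (hlen _ (by simp)) m hm v h2
      ⟨trivial, u, by simpa [stepR] using h1, hp⟩
    exact ⟨u', v, h4, h1' u' (by simpa [stepR] using h3), hv⟩
  · obtain ⟨_, u', h3, h4⟩ := hI (true :: (w ++ [false])) (hlen _ (by simp)) m hm n hn
      ⟨trivial, u, by simpa [stepR] using h1,
      ((path_append _ _).2 ⟨v, hp, path_single.2 ⟨trivial, trivial, by simpa [stepR] using h2⟩⟩)⟩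
    obtain ⟨v', h5, h6⟩ := (path_append _ _).1 h4
    exact ⟨u', v', h5, h1' u' (by simpa [stepR] using h3),
      h2' v' (by simpa [stepR] using (path_single.1 h6).2.2)⟩

lemma Comp.symm {a b : Ch Q} (h : Comp a b) : Comp b a :=
  fun x hx y hy => (h y hy x hx).symm

lemma iso_double {A : Set Q} (hA : IsLowerSet A) {N : ℕ} (hI : Iso A N) :
    Iso (chIn A) (2 * N) := by
  refine iso_of_zz (chIn_lower A) ?_
  intro r hr a ha b hb hp
  match r, hr, hp with
  | 0, _, hp => exact ⟨ha, hp.2⟩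
  | 1, _, hp =>
    obtain ⟨_, d, hd, _, e, he, _, rfl⟩ := hp
    exact peak ha (comp_of_le (d := d) hd he) ⟨hb, rfl⟩
  | k + 2, hr, hp =>
    obtain ⟨_, d, hd, _, e, he, hp'⟩ := hp
    obtain ⟨u, hu⟩ := e.nonempty
    obtain ⟨w, v, hw, h1, h2⟩ := extract k hp' u hu
    have hua : Comp (sg u) a := by
      refine comp_of_le (d := d) ?_ hd
      intro x hx
      simp only [sg, Finset.mem_singleton] at hx
      subst hx; exact he hu
    obtain ⟨u', v', h3, h4, h5⟩ := middle hA hI ha hb (by omega) h1 hua h2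
    have := build hb w h3 h5
    rw [hw] at this
    exact peak ha h4.symm this

lemma iso_base {A : Set Q} (hA : IsLowerSet A) : Iso A 2 := by
  refine iso_of_zz hA ?_
  intro r hr a ha b hb hp
  obtain rfl : r = 0 := by omega
  exact ⟨ha, hp.2⟩

end

end Pool.Agent.H948Z.BK
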