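import Mathlib
import Pool.Agent.H948Z.BK1

/-! Iterated chain posets, supports and gluing. -/

namespace Pool.Agent.H948Z.BK

open PartialOrder CategoryTheory

noncomputable abbrev chF : PartOrd.{0} ⥤ PartOrd.{0} := PartOrd.nonemptyFiniteChainsFunctor

noncomputable def Sd : ℕ → (PartOrd.{0} ⥤ PartOrd.{0})
  | 0 => 𝟭 _
  | j + 1 => chF ⋙ Sd j

def supp : (j : ℕ) → (Q : PartOrd.{0}) → (Sd j).obj Q → Set Q
  | 0, _, x => {x}
  | j + 1, Q, x => {q | ∃ c ∈ supp j (chF.obj Q) x, q ∈ (show Ch Q from c).finset}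

def Emb {P Q : PartOrd.{0}} (e : P ⟶ Q) : Prop := ∀ a b : P, e a ≤ e b → a ≤ b

lemma Emb.inj {P Q : PartOrd.{0}} {e : P ⟶ Q} (h : Emb e) : Function.Injective e :=
  fun a b hab => le_antisymm (h a b hab.le) (h b a hab.ge)

lemma mem_chF_map {P Q : PartOrd.{0}} (e : P ⟶ Q) (c : Ch P) (q : Q) :
    q ∈ (show Ch Q from chF.map e c).finset ↔ ∃ p ∈ c.finset, e p = q :=
  NonemptyFiniteChains.mem_map_iff c e.hom q

lemma emb_chF {P Q : PartOrd.{0}} {e : P ⟶ Q} (h : Emb e) : Emb (chF.map e) := by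
  intro a b hab x hx
  have : e x ∈ (show Ch Q from chF.map e b).finset :=
    hab ((mem_chF_map e a _).2 ⟨x, hx, rfl⟩)
  obtain ⟨p, hp, hp'⟩ := (mem_chF_map e b _).1 this
  rwa [← h.inj hp']

lemma emb_Sd (j : ℕ) : ∀ {P Q : PartOrd.{0}} {e : P ⟶ Q}, Emb e → Emb ((Sd j).map e) := by
  induction j with
  | zero => intro P Q e h; exact h
  | succ j ih => intro P Q e h; exact ih (emb_chF h)

lemma supp_map (j : ℕ) : ∀ {P Q : PartOrd.{0}} (e : P ⟶ Q) (x : (Sd j).obj P),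
    supp j Q ((Sd j).map e x) = e '' supp j P x := by
  induction j with
  | zero => intro P Q e x; exact (Set.image_singleton).symm
  | succ j ih =>
    intro P Q e x
    ext q
    have := ih (chF.map e) x
    constructor
    · rintro ⟨c, hc, hq⟩
      have hc' : c ∈ supp j (chF.obj Q) ((Sd j).map (chF.map e) x) := hc
      rw [this] at hc'
      obtain ⟨c', h1, rfl⟩ := hc'
      obtain ⟨p, hp, rfl⟩ := (mem_chF_map e c' _).1 hq
      exact ⟨p, ⟨c', h1, hp⟩, rfl⟩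
    · rintro ⟨p, ⟨c', h1, hp⟩, rfl⟩
      refine ⟨chF.map e c', ?_, (mem_chF_map e c' _).2 ⟨p, hp, rfl⟩⟩
      change _ ∈ supp j (chF.obj Q) ((Sd j).map (chF.map e) x)
      rw [this]
      exact ⟨c', h1, rfl⟩

lemma supp_ne (j : ℕ) : ∀ (Q : PartOrd.{0}) (x : (Sd j).obj Q), (supp j Q x).Nonempty := by
  induction j with
  | zero => intro Q x; exact Set.singleton_nonempty _
  | succ j ih =>
    intro Q x
    obtain ⟨c, hc⟩ := ih (chF.obj Q) x
    obtain ⟨q, hq⟩ := (show Ch Q from c).nonempty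
    exact ⟨q, c, hc, hq⟩

lemma supp_fin (j : ℕ) : ∀ (Q : PartOrd.{0}) (x : (Sd j).obj Q), (supp j Q x).Finite := by
  induction j with
  | zero => intro Q x; exact Set.finite_singleton _
  | succ j ih =>
    intro Q x
    have := (ih (chF.obj Q) x).biUnion
      (t := fun c => ((show Ch Q from c).finset : Set Q)) (fun c _ => Finset.finite_toSet _)
    refine this.subset ?_
    rintro q ⟨c, hc, hq⟩
    simp only [Set.mem_iUnion]
    exact ⟨c, hc, hq⟩

lemma supp_chain (j : ℕ) : ∀ (Q : PartOrd.{0}) (x y : (Sd j).obj Q), x ≤ y →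
    ∀ a ∈ supp j Q x ∪ supp j Q y, ∀ b ∈ supp j Q x ∪ supp j Q y, a ≤ b ∨ b ≤ a := by
  induction j with
  | zero =>
    intro Q x y h a ha b hb
    rcases ha with ha | ha <;> rcases hb with hb | hb <;>
      (obtain rfl := Set.mem_singleton_iff.1 ha; obtain rfl := Set.mem_singleton_iff.1 hb)
    · exact Or.inl le_rfl
    · exact Or.inl h
    · exact Or.inr h
    · exact Or.inl le_rfl
  | succ j ih =>
    intro Q x y h a ha b hb
    have ha' : ∃ c ∈ supp j (chF.obj Q) x ∪ supp j (chF.obj Q) y,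
        a ∈ (show Ch Q from c).finset := by
      rcases ha with ⟨c, h1, h2⟩ | ⟨c, h1, h2⟩
      · exact ⟨c, Or.inl h1, h2⟩
      · exact ⟨c, Or.inr h1, h2⟩
    have hb' : ∃ c ∈ supp j (chF.obj Q) x ∪ supp j (chF.obj Q) y,
        b ∈ (show Ch Q from c).finset := by
      rcases hb with ⟨c, h1, h2⟩ | ⟨c, h1, h2⟩
      · exact ⟨c, Or.inl h1, h2⟩
      · exact ⟨c, Or.inr h1, h2⟩
    obtain ⟨c, hc, hac⟩ := ha'
    obtain ⟨d, hd, hbd⟩ := hb'
    rcases ih (chF.obj Q) x y h c hc d hd with h1 | h1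
    · exact ch_comp (show Ch Q from d) (h1 hac) hbd
    · exact ch_comp (show Ch Q from c) hac (h1 hbd)

lemma chF_lift {P Q : PartOrd.{0}} {e : P ⟶ Q} (h : Emb e) (c : Ch Q)
    (hc : ∀ q ∈ c.finset, q ∈ Set.range e) : ∃ c' : Ch P, chF.map e c' = c := by
  classical
  refine ⟨⟨c.finset.preimage e (h.inj.injOn), ?_, ?_⟩, ?_⟩
  · obtain ⟨q, hq⟩ := c.nonempty
    obtain ⟨p, rfl⟩ := hc q hq
    exact ⟨p, by simpa using hq⟩
  · rintro ⟨a, ha⟩ ⟨b, hb⟩
    simp only [Finset.mem_preimage] at ha hb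
    exact (ch_comp c ha hb).imp (h a b) (h b a)
  · apply NonemptyFiniteChains.ext
    ext q
    refine (mem_chF_map e _ q).trans ?_
    simp only [Finset.mem_preimage]
    constructor
    · rintro ⟨p, hp, rfl⟩; exact hp
    · intro hq
      obtain ⟨p, rfl⟩ := hc q hq
      exact ⟨p, hq, rfl⟩

lemma Sd_lift (j : ℕ) : ∀ {P Q : PartOrd.{0}} {e : P ⟶ Q}, Emb e → ∀ x : (Sd j).obj Q,
    supp j Q x ⊆ Set.range e → ∃ x', (Sd j).map e x' = x := by
  induction j with
  | zero => intro P Q e _ x hx; exact hx rfl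
  | succ j ih =>
    intro P Q e h x hx
    refine ih (emb_chF h) x ?_
    intro c hc
    exact chF_lift h c (fun q hq => hx ⟨c, hc, hq⟩)

lemma iso_Sd (j : ℕ) : ∀ (Q : PartOrd.{0}) (A : Set Q) (N : ℕ), IsLowerSet A → Iso A N →
    Iso {x : (Sd j).obj Q | supp j Q x ⊆ A} (2 ^ j * N) := by
  induction j with
  | zero =>
    intro Q A N _ h
    have : {x : (Sd 0).obj Q | supp 0 Q x ⊆ A} = A := by
      ext x; exact Set.singleton_subset_iff
    rw [this, pow_zero, one_mul]; exact h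
  | succ j ih =>
    intro Q A N hA h
    have h1 := ih (chF.obj Q) (chIn A) (2 * N) (chIn_lower A) (iso_double hA h)
    have : {x : (Sd (j + 1)).obj Q | supp (j + 1) Q x ⊆ A} =
        {x : (Sd j).obj (chF.obj Q) | supp j (chF.obj Q) x ⊆ chIn A} := by
      ext x
      constructor
      · intro hx c hc q hq; exact hx ⟨c, hc, hq⟩
      · rintro hx q ⟨c, hc, hq⟩; exact hx hc q hq
    rw [this, pow_succ, mul_assoc]
    exact h1

noncomputable def sing : (j : ℕ) → (Q : PartOrd.{0}) → Q → (Sd j).obj Q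
  | 0, _, x => x
  | j + 1, Q, x => sing j (chF.obj Q) (sg x)

lemma chF_sg {P Q : PartOrd.{0}} (e : P ⟶ Q) (x : P) : chF.map e (sg x) = sg (e x) := by
  apply NonemptyFiniteChains.ext
  ext q
  refine (mem_chF_map e _ q).trans ?_
  simp [sg, eq_comm]

lemma sing_map (j : ℕ) : ∀ {P Q : PartOrd.{0}} (e : P ⟶ Q) (x : P),
    (Sd j).map e (sing j P x) = sing j Q (e x) := by
  induction j with
  | zero => intro P Q e x; rfl
  | succ j ih =>
    intro P Q e x
    have := ih (chF.map e) (sg x)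
    rw [chF_sg] at this
    exact this

lemma sing_le (j : ℕ) : ∀ (Q : PartOrd.{0}) (x y : Q), sing j Q x ≤ sing j Q y → x ≤ y := by
  induction j with
  | zero => intro Q x y h; exact h
  | succ j ih =>
    intro Q x y h
    have h1 : x ∈ (sg y).finset := ih (chF.obj Q) (sg x) (sg y) h (by simp [sg])
    simp only [sg, Finset.mem_singleton] at h1
    exact h1.le

lemma sing_dist (j : ℕ) : ∀ (Q : PartOrd.{0}) (φ : (Sd j).obj Q → ℕ),
    (∀ a b, a ≤ b → fle (φ a) (φ b)) → ∀ x y : Q, x ≤ y →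
      φ (sing j Q x) ≤ φ (sing j Q y) + 2 ^ j ∧ φ (sing j Q y) ≤ φ (sing j Q x) + 2 ^ j := by
  induction j with
  | zero =>
    intro Q φ hφ x y h
    have := hφ (sing 0 Q x) (sing 0 Q y) h
    unfold fle at this
    omega
  | succ j ih =>
    intro Q φ hφ x y h
    have hc : Comp (sg x) (sg y) := by
      intro a ha b hb
      simp only [sg, Finset.mem_singleton] at ha hb
      subst ha; subst hb; exact Or.inl h
    obtain ⟨d, hd⟩ := exists_union hc
    have h1 := ih (chF.obj Q) φ hφ (sg x) d (fun q hq => (hd q).2 (Or.inl hq))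
    have h2 := ih (chF.obj Q) φ hφ (sg y) d (fun q hq => (hd q).2 (Or.inr hq))
    change φ (sing j (chF.obj Q) (sg x)) ≤ φ (sing j (chF.obj Q) (sg y)) + _ ∧
      φ (sing j (chF.obj Q) (sg y)) ≤ φ (sing j (chF.obj Q) (sg x)) + _
    rw [pow_succ]
    omega

lemma sd_sub (j : ℕ) : ∀ (Q : PartOrd.{0}), Subsingleton Q → Subsingleton ((Sd j).obj Q) := by
  induction j with
  | zero => intro Q h; exact h
  | succ j ih =>
    intro Q h
    refine ih (chF.obj Q) ⟨fun a b => ?_⟩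
    apply NonemptyFiniteChains.ext
    obtain ⟨x, hx⟩ := (show Ch Q from a).nonempty
    obtain ⟨y, hy⟩ := (show Ch Q from b).nonempty
    ext q
    constructor
    · intro _; rwa [Subsingleton.elim q y]
    · intro _; rwa [Subsingleton.elim q x]

abbrev tp : SimplexCategory ⥤ PartOrd.{0} := SimplexCategory.toPartOrd

lemma exists_enum {Q : PartOrd.{0}} {S : Set Q} (hf : S.Finite) (hn : S.Nonempty)
    (hc : ∀ a ∈ S, ∀ b ∈ S, a ≤ b ∨ b ≤ a) :
    ∃ (k : SimplexCategory) (t : tp.obj k ⟶ Q), Emb t ∧ Set.range t = S := by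
  classical
  let _ : LinearOrder S :=
    { Subtype.partialOrder _ with
      le_total := fun a b => hc a a.2 b b.2
      toDecidableLE := Classical.decRel _ }
  have _ : Fintype S := hf.fintype
  have _ : Nonempty S := hn.to_subtype
  obtain ⟨k, hk⟩ : ∃ k, Fintype.card S = k + 1 :=
    ⟨Fintype.card S - 1, by have := Fintype.card_pos (α := S); omega⟩
  let e : Fin (k + 1) ≃o S := Fintype.orderIsoFinOfCardEq S hk
  refine ⟨SimplexCategory.mk k, PartOrd.ofHom
    ⟨fun i : ULift (Fin (k + 1)) => (e i.down : Q), fun a b hab => ?_⟩, ?_, ?_⟩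
  · exact e.monotone hab
  · intro a b hab
    exact e.le_iff_le.1 hab
  · ext q
    constructor
    · rintro ⟨i, rfl⟩; exact (e i.down).2
    · intro hq
      exact ⟨ULift.up (e.symm ⟨q, hq⟩), congrArg Subtype.val (e.apply_symm_apply ⟨q, hq⟩)⟩

lemma exists_factor {Q : PartOrd.{0}} {k l : SimplexCategory} {t : tp.obj k ⟶ Q} (ht : Emb t)
    (s : tp.obj l ⟶ Q) (hs : Set.range s ⊆ Set.range t) :
    ∃ τ : l ⟶ k, tp.map τ ≫ t = s := by
  have h : ∀ i : Fin (l.len + 1), ∃ i' : Fin (k.len + 1), t (ULift.up i') = s (ULift.up i) := by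
    intro i
    obtain ⟨i', hi'⟩ := hs ⟨ULift.up i, rfl⟩
    exact ⟨i'.down, hi'⟩
  choose g hg using h
  refine ⟨SimplexCategory.Hom.mk ⟨g, fun a b hab => ?_⟩, ?_⟩
  · have : (ULift.up (g a) : ULift (Fin (k.len + 1))) ≤ ULift.up (g b) := by
      apply ht
      exact (hg a).le.trans ((s.hom.monotone hab).trans (hg b).ge)
    exact this
  · ext i
    exact hg i.down

lemma tp_full {k l : SimplexCategory} (s : tp.obj l ⟶ tp.obj k) : ∃ τ : l ⟶ k, tp.map τ = s := by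
  obtain ⟨τ, h⟩ := exists_factor (t := 𝟙 (tp.obj k)) (fun a b h => h) s
    (fun x _ => ⟨x, rfl⟩)
  exact ⟨τ, (Category.comp_id _).symm.trans h⟩

lemma glue (j : ℕ) {Q : PartOrd.{0}} {Z : PartOrd.{0}} [Nonempty Z] (𝒜 : Set (Set Q))
    (h𝒜 : IsLowerSet 𝒜)
    (ψ : ∀ (m : SimplexCategory) (s : tp.obj m ⟶ Q), Set.range s ∈ 𝒜 → ((Sd j).obj (tp.obj m) ⟶ Z))
    (hψ : ∀ (l m : SimplexCategory) (f : l ⟶ m) (s : tp.obj m ⟶ Q) (hs : Set.range s ∈ 𝒜)
      (hs' : Set.range (tp.map f ≫ s) ∈ 𝒜),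
      ψ l (tp.map f ≫ s) hs' = (Sd j).map (tp.map f) ≫ ψ m s hs) :
    ∃ φ : (Sd j).obj Q → Z,
      (∀ m s hs x, φ ((Sd j).map s x) = ψ m s hs x) ∧
      ∀ x y, x ≤ y → supp j Q x ∪ supp j Q y ∈ 𝒜 → φ x ≤ φ y := by
  classical
  have hr : ∀ {l m : SimplexCategory} (f : l ⟶ m) (s : tp.obj m ⟶ Q),
      Set.range (tp.map f ≫ s) ⊆ Set.range s := by
    rintro l m f s _ ⟨i, rfl⟩
    exact ⟨tp.map f i, rfl⟩
  have key : ∀ m s hs x k (t : tp.obj k ⟶ Q) ht y, Emb t → (Sd j).map t y = (Sd j).map s x →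
      ψ k t ht y = ψ m s hs x := by
    intro m s hs x k t ht y het hxy
    obtain ⟨l, u, hu, hu'⟩ := exists_enum (supp_fin j _ x) (supp_ne j _ x)
      (fun a ha b hb => supp_chain j _ x x le_rfl a (Or.inl ha) b (Or.inl hb))
    obtain ⟨x₀, rfl⟩ := Sd_lift j hu x hu'.ge
    obtain ⟨υ, rfl⟩ := tp_full u
    obtain ⟨τ, hτ⟩ := exists_factor het (tp.map υ ≫ s) (by
      rintro _ ⟨i, rfl⟩
      have h1 : s (tp.map υ i) ∈ supp j Q ((Sd j).map t y) := by
        rw [hxy, supp_map, ← hu']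
        exact ⟨_, ⟨i, rfl⟩, rfl⟩
      rw [supp_map] at h1
      obtain ⟨i', _, h2⟩ := h1
      exact ⟨i', h2⟩)
    have h1 := hψ l m υ s hs (h𝒜 (hr υ s) hs)
    have h2 := hψ l k τ t ht (h𝒜 (hr τ t) ht)
    have h3 : ψ l (tp.map τ ≫ t) (h𝒜 (hr τ t) ht) = ψ l (tp.map υ ≫ s) (h𝒜 (hr υ s) hs) := by
      congr 1
    have h4 : y = (Sd j).map (tp.map τ) x₀ := by
      apply (emb_Sd j het).inj
      rw [hxy, ← ConcreteCategory.comp_apply, ← ConcreteCategory.comp_apply,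
        ← Functor.map_comp, ← Functor.map_comp, hτ]
    rw [h4, ← ConcreteCategory.comp_apply, ← ConcreteCategory.comp_apply, ← h1, ← h2, h3]
  have hex : ∀ x : (Sd j).obj Q, supp j Q x ∈ 𝒜 →
      ∃ z : Z, ∀ m s hs x', (Sd j).map s x' = x → ψ m s hs x' = z := by
    intro x hx
    obtain ⟨k, t, ht, ht'⟩ := exists_enum (supp_fin j _ x) (supp_ne j _ x)
      (fun a ha b hb => supp_chain j _ x x le_rfl a (Or.inl ha) b (Or.inl hb))
    obtain ⟨y, rfl⟩ := Sd_lift j ht x ht'.ge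
    exact ⟨ψ k t (ht' ▸ hx) y, fun m s hs x' h => (key m s hs x' k t _ y ht h.symm).symm⟩
  choose φ₀ hφ₀ using hex
  let φ : (Sd j).obj Q → Z :=
    fun x => if h : supp j Q x ∈ 𝒜 then φ₀ x h else Classical.arbitrary Z
  have main : ∀ m s hs x, φ ((Sd j).map s x) = ψ m s hs x := by
    intro m s hs x
    have h : supp j Q ((Sd j).map s x) ∈ 𝒜 := by
      refine h𝒜 ?_ hs
      rw [supp_map]
      exact Set.image_subset_range _ _
    simp only [φ, h, dif_pos]
    exact (hφ₀ _ h m s hs x rfl).symm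
  refine ⟨φ, main, ?_⟩
  intro x y hxy h
  obtain ⟨k, t, ht, ht'⟩ := exists_enum ((supp_fin j _ x).union (supp_fin j _ y))
    ((supp_ne j _ x).mono Set.subset_union_left) (supp_chain j _ x y hxy)
  obtain ⟨x', rfl⟩ := Sd_lift j ht x (ht' ▸ Set.subset_union_left)
  obtain ⟨y', rfl⟩ := Sd_lift j ht y (ht' ▸ Set.subset_union_right)
  rw [main k t (ht' ▸ h), main k t (ht' ▸ h)]
  exact (ψ k t _).hom.monotone (emb_Sd j ht _ _ hxy)

end Pool.Agent.H948Z.BK
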