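import Mathlib
import Pool.Agent.H948Z.BK2

/-! Iterated Ex of the nerve of a poset, and the fence. -/

namespace Pool.Agent.H948Z.BK

open PartialOrder CategoryTheory Opposite Simplicial

noncomputable def E (j : ℕ) (Z : PartOrd.{0}) : SSet.{0} :=
  (tp ⋙ Sd j).op ⋙ yoneda.obj Z

lemma E_map (j : ℕ) (Z : PartOrd.{0}) {m l : SimplexCategoryᵒᵖ} (f : m ⟶ l)
    (x : (E j Z).obj m) :
    (E j Z).map f x = (Sd j).map (tp.map f.unop) ≫ (show (Sd j).obj (tp.obj m.unop) ⟶ Z from x) :=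
  rfl

def toS {Q : PartOrd.{0}} {m : SimplexCategoryᵒᵖ} (x : (nerve Q).obj m) : tp.obj m.unop ⟶ Q :=
  PartOrd.ofHom ⟨fun i : ULift (Fin (m.unop.len + 1)) => x.obj i.down,
    fun _ _ h => leOfHom (x.map (homOfLE h))⟩

def ofS {Q : PartOrd.{0}} {m : SimplexCategoryᵒᵖ} (s : tp.obj m.unop ⟶ Q) : (nerve Q).obj m :=
  Monotone.functor (f := fun i : Fin (m.unop.len + 1) => s (ULift.up i))
    (fun _ _ h => s.hom.monotone h)

lemma toS_ofS {Q : PartOrd.{0}} {m : SimplexCategoryᵒᵖ} (s : tp.obj m.unop ⟶ Q) :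
    toS (ofS s) = s := rfl

lemma ofS_toS {Q : PartOrd.{0}} {m : SimplexCategoryᵒᵖ} (x : (nerve Q).obj m) :
    ofS (toS x) = x := rfl

lemma toS_map {Q : PartOrd.{0}} {m l : SimplexCategoryᵒᵖ} (f : m ⟶ l) (x : (nerve Q).obj m) :
    toS ((nerve Q).map f x) = tp.map f.unop ≫ toS x := rfl

noncomputable def iso0 (Z : PartOrd.{0}) : nerve Z ≅ E 0 Z :=
  NatIso.ofComponents (fun m => Equiv.toIso
    { toFun := toS, invFun := ofS, left_inv := ofS_toS, right_inv := toS_ofS })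
    (fun f => by ext x; rfl)

noncomputable def toHom (j : ℕ) {Q Z : PartOrd.{0}} (φ : (Sd j).obj Q ⟶ Z) : nerve Q ⟶ E j Z where
  app m := TypeCat.ofHom fun x => (Sd j).map (toS x) ≫ φ
  naturality m l f := by
    ext x
    change (Sd j).map (tp.map f.unop ≫ toS x) ≫ φ =
      (Sd j).map (tp.map f.unop) ≫ (Sd j).map (toS x) ≫ φ
    rw [Functor.map_comp, Category.assoc]

lemma toHom_bij (j : ℕ) {Q Z : PartOrd.{0}} [Nonempty Z] :
    Function.Bijective (toHom j (Q := Q) (Z := Z)) := by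
  constructor
  · intro φ φ' h
    ext x
    obtain ⟨k, t, ht, ht'⟩ := exists_enum (supp_fin j _ x) (supp_ne j _ x)
      (fun a ha b hb => supp_chain j _ x x le_rfl a (Or.inl ha) b (Or.inl hb))
    obtain ⟨y, rfl⟩ := Sd_lift j ht x ht'.ge
    have h1 : (toHom j φ).app (op k) (ofS t) = (toHom j φ').app (op k) (ofS t) := by rw [h]
    have h2 : (Sd j).map t ≫ φ = (Sd j).map t ≫ φ' := h1
    exact ConcreteCategory.congr_hom h2 y
  · intro g
    obtain ⟨φ, h1, h2⟩ := glue j (Q := Q) (Z := Z) Set.univ isLowerSet_univ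
      (fun m s _ => g.app (op m) (ofS s)) (by
        intro l m f s _ _
        exact ConcreteCategory.congr_hom (g.naturality f.op) (ofS s))
    refine ⟨PartOrd.ofHom ⟨φ, fun x y h => h2 x y h trivial⟩, ?_⟩
    ext m x
    change (Sd j).map (toS x) ≫ _ = _
    ext y
    exact h1 m.unop (toS x) trivial y

noncomputable def toEx (j : ℕ) (Z : PartOrd.{0}) : E (j + 1) Z ⟶ SSet.ex.obj (E j Z) where
  app m := TypeCat.ofHom fun φ => ULift.up (toHom j (Q := chF.obj (tp.obj m.unop)) φ)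
  naturality m l f := by
    ext φ
    apply ULift.ext
    change toHom j ((Sd j).map (chF.map (tp.map f.unop)) ≫ φ) =
      PartOrd.nerveFunctor.map (chF.map (tp.map f.unop)) ≫ toHom j φ
    ext k x
    change (Sd j).map (toS x) ≫ (Sd j).map (chF.map (tp.map f.unop)) ≫ φ =
      (Sd j).map (toS x ≫ chF.map (tp.map f.unop)) ≫ φ
    rw [Functor.map_comp]
    exact (Category.assoc _ _ _).symm

lemma toEx_iso (j : ℕ) (Z : PartOrd.{0}) [Nonempty Z] : IsIso (toEx j Z) := by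
  have : ∀ m, IsIso ((toEx j Z).app m) := by
    intro m
    rw [isIso_iff_bijective]
    exact Equiv.ulift.symm.bijective.comp (toHom_bij j (Q := chF.obj (tp.obj m.unop)) (Z := Z))
  exact NatIso.isIso_of_isIso_app _

lemma iter_iso (Z : PartOrd.{0}) [Nonempty Z] (j : ℕ) :
    Nonempty ((SSet.ex.obj)^[j] (nerve Z) ≅ E j Z) := by
  induction j with
  | zero => exact ⟨iso0 Z⟩
  | succ j ih =>
    obtain ⟨e⟩ := ih
    rw [Function.iterate_succ_apply']
    have := toEx_iso j Z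
    exact ⟨SSet.ex.mapIso e ≪≫ (asIso (toEx j Z)).symm⟩

lemma kan_of_iso {X Y : SSet.{0}} (e : X ≅ Y) (h : SSet.KanComplex X) : SSet.KanComplex Y := by
  rw [SSet.KanComplex.iff]
  intro n i f hf
  obtain ⟨σ, hσ⟩ := SSet.KanComplex.hornFilling (hf.desc ≫ e.inv)
  refine ⟨σ ≫ e.hom, fun j hj => ?_⟩
  rw [← SSet.horn.ι_ι i j hj, Category.assoc, ← Category.assoc _ σ, ← hσ]
  simp

@[ext] structure Fence (L : ℕ) where
  val : ℕ
  le : val ≤ L

instance (L : ℕ) : PartialOrder (Fence L) where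
  le a b := fle a.val b.val
  le_refl a := Or.inl rfl
  le_trans a b c h1 h2 := by
    change fle _ _ at *
    unfold fle at *; omega
  le_antisymm a b h1 h2 := by
    change fle _ _ at *
    apply Fence.ext
    unfold fle at *; omega

abbrev FZ (L : ℕ) : PartOrd.{0} := PartOrd.of (Fence L)

instance (L : ℕ) : Nonempty (FZ L) := ⟨⟨0, Nat.zero_le _⟩⟩

def untp {k l : SimplexCategory} (s : tp.obj l ⟶ tp.obj k) : l ⟶ k :=
  SimplexCategory.Hom.mk ⟨fun i => (s (ULift.up i)).down, fun _ _ h => s.hom.monotone h⟩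

lemma kan_E (j L : ℕ) (hL : L ≤ 2 ^ (j + 1)) : SSet.KanComplex (E (j + 1) (FZ L)) := by
  rw [SSet.KanComplex.iff]
  intro n i f hf
  let P : PartOrd.{0} := tp.obj ⦋n + 1⦌
  let 𝒜 : Set (Set P) := {B | ∃ q : Fin (n + 2), q ≠ i ∧ (ULift.up q : ULift (Fin (n + 2))) ∉ B}
  have h𝒜 : IsLowerSet 𝒜 := by
    rintro B B' h ⟨q, h1, h2⟩
    exact ⟨q, h1, fun h3 => h2 (h h3)⟩
  have hmem : ∀ (m : SimplexCategory) (s : tp.obj m ⟶ P), Set.range s ∈ 𝒜 →
      SSet.stdSimplex.objEquiv.symm (untp s) ∈ (SSet.horn.{0} (n + 1) i).obj (op m) := by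
    rintro m s ⟨q, h1, h2⟩
    rw [SSet.mem_horn_iff]
    intro h
    have : q ∈ Set.range (SSet.stdSimplex.asOrderHom (SSet.stdSimplex.objEquiv.{0}.symm (untp s)))
      ∪ {i} := h ▸ Set.mem_univ _
    rcases this with ⟨a, ha⟩ | h3
    · exact h2 ⟨ULift.up a, ULift.ext _ _ ha⟩
    · exact h1 h3
  obtain ⟨φ, h1, h2⟩ := glue (j + 1) (Q := P) (Z := FZ L) 𝒜 h𝒜
    (fun m s hs => hf.desc.app (op m) ⟨_, hmem m s hs⟩) (by
      intro l m g s hs hs'
      exact ConcreteCategory.congr_hom (hf.desc.naturality g.op) ⟨_, hmem m s hs⟩)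
  let A : Set (chF.obj P) := {c | ((show Ch P from c).finset : Set P) ∈ 𝒜}
  have hA : IsLowerSet A := fun a b h ha => h𝒜 (Finset.coe_subset.2 h) ha
  have hI := iso_Sd j (chF.obj P) A 2 hA (iso_base hA)
  have hun : ∀ x y : (Sd j).obj (chF.obj P), x ≤ y → supp j _ x ⊆ A → supp j _ y ⊆ A →
      supp (j + 1) P x ∪ supp (j + 1) P y ∈ 𝒜 := by
    intro x y hxy hx hy
    obtain ⟨c, hc⟩ := ((supp_fin j _ x).union (supp_fin j _ y)).exists_maximal
      ((supp_ne j _ x).mono Set.subset_union_left)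
    have hcA : c ∈ A := Set.union_subset hx hy hc.1
    have hle : ∀ d ∈ supp j _ x ∪ supp j _ y, d ≤ c := by
      intro d hd
      rcases supp_chain j _ x y hxy d hd c hc.1 with h | h
      · exact h
      · exact hc.2 hd h
    refine h𝒜 ?_ hcA
    rintro q (⟨d, hd, hq⟩ | ⟨d, hd, hq⟩)
    · exact hle d (Or.inl hd) hq
    · exact hle d (Or.inr hd) hq
  obtain ⟨F, hF1, hF2, hF3⟩ := extend hI (L := L) (by rwa [← pow_succ])
    (f := fun x => (φ x).val) (fun a ha b hb hab => h2 a b hab (hun a b hab ha hb))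
    (fun a _ => (φ a).le)
  let Φ : (Sd (j + 1)).obj P ⟶ FZ L :=
    PartOrd.ofHom ⟨fun x => ⟨F x, hF1 x⟩, fun x y h => hF2 x y h⟩
  refine ⟨SSet.yonedaEquiv.symm Φ, fun q hq => ?_⟩
  rw [← SSet.horn.ι_ι i q hq, Category.assoc, ← hf.ι_desc q hq]
  congr 1
  ext m x
  obtain ⟨x, hx⟩ := x
  obtain ⟨g, rfl⟩ := SSet.stdSimplex.objEquiv.symm.surjective x
  change (Sd (j + 1)).map (tp.map g) ≫ Φ = _
  have hr : Set.range (tp.map g) ∈ 𝒜 := by
    rw [SSet.mem_horn_iff, Ne, Set.eq_univ_iff_forall, not_forall] at hx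
    obtain ⟨q', hq'⟩ := hx
    refine ⟨q', fun h => hq' (Or.inr h), ?_⟩
    rintro ⟨a, ha⟩
    exact hq' (Or.inl ⟨a.down, congrArg ULift.down ha⟩)
  ext y
  change F ((Sd (j + 1)).map (tp.map g) y) = _
  refine (hF3 _ ?_).trans ?_
  swap
  · have e : untp (tp.map g) = g := by ext a; rfl
    have h3 := h1 m.unop (tp.map g) hr y
    simp only [e] at h3
    exact congrArg Fence.val h3
  · intro c hc
    refine h𝒜 ?_ hr
    intro p hp
    have : p ∈ supp (j + 1) P ((Sd (j + 1)).map (tp.map g) y) := ⟨c, hc, hp⟩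
    rw [supp_map] at this
    exact Set.image_subset_range _ _ this

noncomputable def sv (j n : ℕ) (i : Fin (n + 1)) : (Sd j).obj (tp.obj ⦋n⦌) :=
  sing j (tp.obj ⦋n⦌) (ULift.up i)

lemma sv_map (j n : ℕ) (q : Fin (n + 2)) (i : Fin (n + 1)) :
    (Sd j).map (tp.map (SimplexCategory.δ q)) (sv j n i) = sv j (n + 1) (q.succAbove i) :=
  sing_map j (tp.map (SimplexCategory.δ q)) (ULift.up i)

lemma exists_D (j : ℕ) : ∃ D : ℕ, 1 ≤ D ∧ D ≤ 2 ^ j ∧
    (∃ φ : (Sd j).obj (tp.obj ⦋1⦌) → ℕ, (∀ a b, a ≤ b → fle (φ a) (φ b)) ∧ (∀ a, φ a ≤ D) ∧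
      φ (sv j 1 0) = 0 ∧ φ (sv j 1 1) = D) ∧
    ∀ φ : (Sd j).obj (tp.obj ⦋1⦌) → ℕ, (∀ a b, a ≤ b → fle (φ a) (φ b)) →
      φ (sv j 1 0) = 0 → φ (sv j 1 1) ≤ D := by
  classical
  let T : Set ℕ := {D | ∃ φ : (Sd j).obj (tp.obj ⦋1⦌) → ℕ, (∀ a b, a ≤ b → fle (φ a) (φ b)) ∧
      φ (sv j 1 0) = 0 ∧ φ (sv j 1 1) = D}
  have hb : ∀ D ∈ T, D ≤ 2 ^ j := by
    rintro D ⟨φ, h1, h2, h3⟩
    have := (sing_dist j _ φ h1 (ULift.up (0 : Fin 2)) (ULift.up (1 : Fin 2))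
      (show (0 : Fin 2) ≤ 1 by decide)).2
    change φ (sv j 1 1) ≤ φ (sv j 1 0) + _ at this
    omega
  have h1 : 1 ∈ T := by
    refine ⟨fun x => if x ≤ sv j 1 0 then 0 else 1, ?_, if_pos le_rfl, ?_⟩
    · intro a b hab
      unfold fle
      by_cases h : b ≤ sv j 1 0
      · exact Or.inl ((if_pos (hab.trans h)).trans (if_pos h).symm)
      · beta_reduce
        rw [if_neg h]
        split_ifs <;> omega
    · have : ¬ sv j 1 1 ≤ sv j 1 0 := by
        intro h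
        have h' : (1 : Fin 2) ≤ 0 := sing_le j _ _ _ h
        exact absurd h' (by decide)
      exact if_neg this
  have hbd : BddAbove T := ⟨_, hb⟩
  have hm := Nat.sSup_mem ⟨1, h1⟩ hbd
  refine ⟨sSup T, le_csSup hbd h1, hb _ hm, ?_, fun φ h2 h3 => le_csSup hbd ⟨φ, h2, h3, rfl⟩⟩
  obtain ⟨φ, h2, h3, h4⟩ := hm
  refine ⟨fun x => min (φ x) (sSup T), fun a b hab => ?_, fun a => min_le_right _ _, ?_, ?_⟩
  · have := h2 a b hab
    beta_reduce
    unfold fle at *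
    omega
  · simp [h3]
  · simp [h4]

lemma not_kan (j : ℕ) : ∃ D : ℕ, D ≤ 2 ^ j ∧ ¬ SSet.KanComplex (E j (FZ (2 * D))) := by
  obtain ⟨D, hD1, hD2, ⟨φ, h1, h2, h3, h4⟩, h5⟩ := exists_D j
  refine ⟨D, hD2, fun hK => ?_⟩
  let g₁ : (Sd j).obj (tp.obj ⦋1⦌) ⟶ FZ (2 * D) :=
    PartOrd.ofHom ⟨fun x => ⟨φ x, by have := h2 x; omega⟩, fun x y h => h1 x y h⟩
  let g₀ : (Sd j).obj (tp.obj ⦋1⦌) ⟶ FZ (2 * D) :=
    PartOrd.ofHom ⟨fun x => ⟨2 * D - φ x, by omega⟩, fun x y h => by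
      have := h1 x y h
      have := h2 x
      have := h2 y
      change fle (2 * D - φ x) (2 * D - φ y)
      unfold fle at *
      omega⟩
  let f : ∀ (q : Fin 3) (_ : q ≠ 2), Δ[1] ⟶ E j (FZ (2 * D)) := fun q _ =>
    SSet.yonedaEquiv.symm (if q = 0 then g₀ else g₁)
  have hsub : Subsingleton ((Sd j).obj (tp.obj ⦋0⦌)) :=
    sd_sub j _ (inferInstanceAs (Subsingleton (ULift (Fin 1))))
  have hf : SSet.horn.IsCompatible (n := 1) f := by
    rw [SSet.horn.isCompatible_iff (n := 0)]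
    intro a b ha hb hab
    obtain ⟨rfl, rfl⟩ : a = 0 ∧ b = 1 := by
      revert a b; decide
    change SSet.stdSimplex.map (SimplexCategory.δ 0) ≫ SSet.yonedaEquiv.symm (show (E j (FZ (2 * D))).obj (op ⦋1⦌) from g₀) =
      SSet.stdSimplex.map (SimplexCategory.δ 0) ≫ SSet.yonedaEquiv.symm (show (E j (FZ (2 * D))).obj (op ⦋1⦌) from g₁)
    rw [SSet.yonedaEquiv_symm_naturality_left, SSet.yonedaEquiv_symm_naturality_left]
    congr 1
    change (Sd j).map (tp.map (SimplexCategory.δ 0)) ≫ g₀ =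
      (Sd j).map (tp.map (SimplexCategory.δ 0)) ≫ g₁
    ext y
    obtain rfl : y = sv j 0 0 := Subsingleton.elim _ _
    change 2 * D - φ ((Sd j).map (tp.map (SimplexCategory.δ 0)) _) =
      φ ((Sd j).map (tp.map (SimplexCategory.δ 0)) _)
    rw [sv_map]
    change 2 * D - φ (sv j 1 1) = φ (sv j 1 1)
    omega
  obtain ⟨σ, hσ⟩ := hf.exists_lift_of_kanComplex
  obtain ⟨Φ, rfl⟩ := SSet.yonedaEquiv.symm.surjective σ
  have e0 : (Sd j).map (tp.map (SimplexCategory.δ (0 : Fin 3))) ≫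
      (show (Sd j).obj (tp.obj ⦋2⦌) ⟶ FZ (2 * D) from Φ) = g₀ := by
    have := hσ 0 (by decide)
    change SSet.stdSimplex.map (SimplexCategory.δ 0) ≫ _ = SSet.yonedaEquiv.symm (show (E j (FZ (2 * D))).obj (op ⦋1⦌) from g₀) at this
    rw [SSet.yonedaEquiv_symm_naturality_left] at this
    exact SSet.yonedaEquiv.symm.injective this
  have e1 : (Sd j).map (tp.map (SimplexCategory.δ (1 : Fin 3))) ≫
      (show (Sd j).obj (tp.obj ⦋2⦌) ⟶ FZ (2 * D) from Φ) = g₁ := by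
    have := hσ 1 (by decide)
    change SSet.stdSimplex.map (SimplexCategory.δ 1) ≫ _ = SSet.yonedaEquiv.symm (show (E j (FZ (2 * D))).obj (op ⦋1⦌) from g₁) at this
    rw [SSet.yonedaEquiv_symm_naturality_left] at this
    exact SSet.yonedaEquiv.symm.injective this
  let Ψ : (Sd j).obj (tp.obj ⦋2⦌) ⟶ FZ (2 * D) := Φ
  have v0 : (Ψ (sv j 2 0)).val = 0 := by
    have := congrArg Fence.val (ConcreteCategory.congr_hom e1 (sv j 1 0))
    change (Ψ ((Sd j).map (tp.map (SimplexCategory.δ 1)) _)).val = φ _ at this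
    rw [sv_map, h3] at this
    exact this
  have v1 : (Ψ (sv j 2 1)).val = 2 * D := by
    have := congrArg Fence.val (ConcreteCategory.congr_hom e0 (sv j 1 0))
    change (Ψ ((Sd j).map (tp.map (SimplexCategory.δ 0)) _)).val = 2 * D - φ _ at this
    rw [sv_map, h3] at this
    exact this
  have := h5 (fun x => (Ψ ((Sd j).map (tp.map (SimplexCategory.δ (2 : Fin 3))) x)).val)
    (fun a b hab => Ψ.hom.monotone (((Sd j).map _).hom.monotone hab)) (by
      beta_reduce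
      rw [sv_map]; exact v0)
  beta_reduce at this
  rw [sv_map] at this
  change (Ψ (sv j 2 1)).val ≤ D at this
  omega

theorem beke (n : ℕ) (hn : 1 ≤ n) : ∃ (C : Type) (_ : SmallCategory C),
    SSet.KanComplex ((SSet.ex.obj)^[n] (nerve C)) ∧
      ¬ SSet.KanComplex ((SSet.ex.obj)^[n - 1] (nerve C)) := by
  obtain ⟨j, rfl⟩ : ∃ j, n = j + 1 := ⟨n - 1, by omega⟩
  obtain ⟨D, hD, h⟩ := not_kan j
  obtain ⟨e₁⟩ := iter_iso (FZ (2 * D)) (j + 1)
  obtain ⟨e₂⟩ := iter_iso (FZ (2 * D)) j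
  refine ⟨Fence (2 * D), inferInstance,
    kan_of_iso e₁.symm (kan_E j (2 * D) (by rw [pow_succ]; omega)), fun h' => h ?_⟩
  exact kan_of_iso e₂ h'

end Pool.Agent.H948Z.BK
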