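import Mathlib

set_option autoImplicit false

namespace Pool.Agent.H948Z.LS

open Module

universe u

variable {K : Type u} [Field K]

/-- Intertwiners `Z` with `X Z = Z A`. -/
def J {V W : Type u} [AddCommGroup V] [Module K V] [AddCommGroup W] [Module K W]
    (A : V →ₗ[K] V) (X : W →ₗ[K] W) : Submodule K (V →ₗ[K] W) where
  carrier := {Z | ∀ v, X (Z v) = Z (A v)}
  add_mem' := by
    intro a b ha hb v
    simp only [LinearMap.add_apply, map_add, ha v, hb v]
  zero_mem' := by intro v; simp
  smul_mem' := by
    intro c a ha v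
    simp only [LinearMap.smul_apply, map_smul, ha v]

section
variable {V W : Type u} [AddCommGroup V] [Module K V] [AddCommGroup W] [Module K W]

lemma mem_J {A : V →ₗ[K] V} {X : W →ₗ[K] W} {Z : V →ₗ[K] W} :
    Z ∈ J A X ↔ ∀ v, X (Z v) = Z (A v) := Iff.rfl

/-- dimension of the fixed space -/
noncomputable def fix (X : W →ₗ[K] W) : ℕ := finrank K (LinearMap.ker (X - 1))

/-- rank of `X - 1` -/
noncomputable def rk (X : W →ₗ[K] W) : ℕ := finrank K (LinearMap.range (X - 1))

lemma rk_add_fix [FiniteDimensional K W] (X : W →ₗ[K] W) : rk X + fix X = finrank K W :=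
  LinearMap.finrank_range_add_finrank_ker _

lemma J_lower [FiniteDimensional K V] [FiniteDimensional K W] (A : V →ₗ[K] V) (X : W →ₗ[K] W) :
    fix A * fix X ≤ finrank K (J A X) := by
  set R := LinearMap.range (A - 1) with hR
  set F := LinearMap.ker (X - 1) with hF
  let Φ : ((V ⧸ R) →ₗ[K] F) →ₗ[K] (V →ₗ[K] W) :=
    { toFun := fun Z => F.subtype ∘ₗ Z ∘ₗ R.mkQ
      map_add' := fun a b => by ext v; simp
      map_smul' := fun c a => by ext v; simp }
  have hinj : Function.Injective Φ := by
    intro a b hab
    apply LinearMap.ext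
    intro q
    obtain ⟨v, rfl⟩ := R.mkQ_surjective q
    have := LinearMap.congr_fun hab v
    simpa [Φ] using this
  have hle : LinearMap.range Φ ≤ J A X := by
    rintro _ ⟨Z, rfl⟩ v
    have h1 : R.mkQ (A v) = R.mkQ v := by
      rw [Submodule.mkQ_apply, Submodule.mkQ_apply, Submodule.Quotient.eq]
      exact ⟨v, by simp⟩
    have h2 : ∀ w : F, X w = w := by
      intro w
      have : (X - 1) w = 0 := w.2
      rw [LinearMap.sub_apply, sub_eq_zero] at this
      simpa using this
    simp only [Φ, LinearMap.coe_mk, AddHom.coe_mk, LinearMap.comp_apply, h1,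
      Submodule.subtype_apply, h2]
  have h3 := Submodule.finrank_mono hle
  rw [LinearMap.finrank_range_of_inj hinj, Module.finrank_linearMap] at h3
  have h4 := Submodule.finrank_quotient_add_finrank R
  have h5 := rk_add_fix A
  have h6 : finrank K (V ⧸ R) = fix A := by
    unfold rk at h5
    rw [← hR] at h5
    omega
  rw [h6] at h3
  exact h3

lemma J_one_upper [FiniteDimensional K V] [FiniteDimensional K W] (A : V →ₗ[K] V)
    (hA : ∀ v, A v = v) (X : W →ₗ[K] W) :
    finrank K (J A X) ≤ finrank K V * fix X := by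
  set F := LinearMap.ker (X - 1) with hF
  let Φ : (V →ₗ[K] F) →ₗ[K] (V →ₗ[K] W) :=
    { toFun := fun Z => F.subtype ∘ₗ Z
      map_add' := fun a b => by ext v; simp
      map_smul' := fun c a => by ext v; simp }
  have hle : J A X ≤ LinearMap.range Φ := by
    intro Z hZ
    refine ⟨LinearMap.codRestrict F Z ?_, ?_⟩
    · intro v
      rw [hF, LinearMap.mem_ker, LinearMap.sub_apply, sub_eq_zero, hZ v, hA v]
      simp
    · ext v; simp [Φ]
  have h3 := Submodule.finrank_mono hle
  have h4 := LinearMap.finrank_range_le Φ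
  rw [Module.finrank_linearMap] at h4
  exact h3.trans h4

/-- the cyclic subspace -/
def cyc (A : V →ₗ[K] V) (v : V) : Submodule K V :=
  Submodule.span K (Set.range fun i : ℕ => (A ^ i) v)

lemma cyc_inv (A : V →ₗ[K] V) (v : V) : cyc A v ≤ (cyc A v).comap A := by
  unfold cyc
  rw [Submodule.span_le]
  rintro _ ⟨i, rfl⟩
  refine Submodule.subset_span ⟨i + 1, ?_⟩
  simp only [pow_succ', Module.End.mul_apply]

lemma self_mem_cyc (A : V →ₗ[K] V) (v : V) : v ∈ cyc A v :=
  Submodule.subset_span ⟨0, by simp⟩

lemma J_step [FiniteDimensional K V] [FiniteDimensional K W] (A : V →ₗ[K] V) (X : W →ₗ[K] W)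
    (v : V) (S : Submodule K W) (hS : ∀ Z ∈ J A X, Z v ∈ S) :
    finrank K (J A X) ≤ finrank K S +
      finrank K (J ((cyc A v).mapQ (cyc A v) A (cyc_inv A v)) X) := by
  set U := cyc A v with hU
  set A' := U.mapQ U A (cyc_inv A v) with hA'
  let ev : (J A X) →ₗ[K] W := (LinearMap.applyₗ v) ∘ₗ (J A X).subtype
  have h1 := LinearMap.finrank_range_add_finrank_ker ev
  have h2 : finrank K (LinearMap.range ev) ≤ finrank K S := by
    apply Submodule.finrank_mono
    rintro _ ⟨Z, rfl⟩
    exact hS Z.1 Z.2
  let Φ : (J A' X) →ₗ[K] (V →ₗ[K] W) :=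
    { toFun := fun Z => Z.1 ∘ₗ U.mkQ
      map_add' := fun a b => by ext v; simp
      map_smul' := fun c a => by ext v; simp }
  have h3 : (LinearMap.ker ev).map (J A X).subtype ≤ LinearMap.range Φ := by
    rintro _ ⟨Z, hZ, rfl⟩
    have hZ0 : Z.1 v = 0 := by simpa [ev] using hZ
    have hk : U ≤ LinearMap.ker Z.1 := by
      rw [hU, cyc, Submodule.span_le]
      rintro _ ⟨i, rfl⟩
      simp only [SetLike.mem_coe, LinearMap.mem_ker]
      induction i with
      | zero => simpa using hZ0
      | succ i ih =>
        rw [pow_succ', Module.End.mul_apply, ← Z.2, ih, map_zero]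
    refine ⟨⟨U.liftQ Z.1 hk, ?_⟩, ?_⟩
    · intro q
      obtain ⟨x, rfl⟩ := U.mkQ_surjective q
      simp only [hA', Submodule.mkQ_apply, Submodule.mapQ_apply, Submodule.liftQ_apply]
      exact Z.2 x
    · ext x; simp [Φ]
  have h4 := Submodule.finrank_mono h3
  rw [Submodule.finrank_map_subtype_eq] at h4
  have h5 := LinearMap.finrank_range_le Φ
  have h6 : finrank K (LinearMap.ker ev) ≤ finrank K (J A' X) := h4.trans h5
  calc finrank K (J A X) = finrank K (LinearMap.range ev) + finrank K (LinearMap.ker ev) := h1.symm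
    _ ≤ finrank K S + finrank K (J A' X) := add_le_add h2 h6

lemma rk_step [FiniteDimensional K V] (A : V →ₗ[K] V) (U : Submodule K V)
    (hU : U ≤ U.comap A) : rk A ≤ rk (U.mapQ U A hU) + finrank K U := by
  set R := LinearMap.range (A - 1) with hR
  have h1 := LinearMap.finrank_range_add_finrank_ker (U.mkQ ∘ₗ R.subtype)
  have h2 : LinearMap.range (U.mkQ ∘ₗ R.subtype) ≤ LinearMap.range (U.mapQ U A hU - 1) := by
    rintro _ ⟨⟨_, x, rfl⟩, rfl⟩
    exact ⟨U.mkQ x, by simp⟩
  have h3 : (LinearMap.ker (U.mkQ ∘ₗ R.subtype)).map R.subtype ≤ U := by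
    rintro _ ⟨x, hx, rfl⟩
    simpa using hx
  have h4 := Submodule.finrank_mono h2
  have h5 := Submodule.finrank_mono h3
  rw [Submodule.finrank_map_subtype_eq] at h5
  unfold rk
  rw [← hR]
  omega

end

lemma J_upper {W : Type u} [AddCommGroup W] [Module K W] [FiniteDimensional K W]
    (X : W →ₗ[K] W) (M : ℝ) (hM1 : (fix X : ℝ) ≤ M) (hM2 : (finrank K W : ℝ) ≤ 2 * M) (n : ℕ) :
    ∀ (V : Type u) [AddCommGroup V] [Module K V] [FiniteDimensional K V] (A : V →ₗ[K] V),
      finrank K V = n →
      (n : ℝ) * fix X + finrank K (J A X) ≤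
        2 * n * M - (rk A : ℝ) / 2 * (2 * M - finrank K W) := by
  induction n using Nat.strong_induction_on with
  | _ n ih =>
    intro V _ _ _ A hn
    by_cases hA : ∀ v, A v = v
    · have h1 := J_one_upper A hA X
      have h2 : rk A = 0 := by
        unfold rk
        have : A - 1 = 0 := by ext v; simp [hA v]
        rw [this]; simp
      rw [hn] at h1
      have h3 : (finrank K (J A X) : ℝ) ≤ n * fix X := by exact_mod_cast h1
      rw [h2]
      have h4 : (n : ℝ) * fix X ≤ n * M := mul_le_mul_of_nonneg_left hM1 (Nat.cast_nonneg n)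
      simp only [Nat.cast_zero, zero_div, zero_mul, sub_zero]
      linarith
    · push Not at hA
      obtain ⟨v, hv⟩ := hA
      have hv0 : v ≠ 0 := by rintro rfl; simp at hv
      set U := cyc A v with hU
      have hd : 0 < finrank K U := by
        rw [Module.finrank_pos_iff_exists_ne_zero]
        exact ⟨⟨v, self_mem_cyc A v⟩, fun h => hv0 (congrArg Subtype.val h)⟩
      have hq := Submodule.finrank_quotient_add_finrank U
      have hi := ih (finrank K (V ⧸ U)) (by omega) (V ⧸ U) (U.mapQ U A (cyc_inv A v)) rfl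
      have hr := rk_step A U (cyc_inv A v)
      have hr' : (rk A : ℝ) ≤ rk (U.mapQ U A (cyc_inv A v)) + finrank K U := by exact_mod_cast hr
      have hq' : (finrank K (V ⧸ U) : ℝ) + finrank K U = n := by rw [← hn]; exact_mod_cast hq
      have hg : 0 ≤ 2 * M - finrank K W := by linarith
      have hr2 : (rk A : ℝ) / 2 * (2 * M - finrank K W) ≤
          (rk (U.mapQ U A (cyc_inv A v)) + finrank K U) / 2 * (2 * M - finrank K W) := by
        apply mul_le_mul_of_nonneg_right _ hg
        linarith
      have hW : (0 : ℝ) ≤ finrank K W := Nat.cast_nonneg _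
      by_cases h1 : finrank K U = 1
      · obtain ⟨c, hc⟩ : ∃ c : K, c • v = A v := by
          have := (finrank_eq_one_iff_of_nonzero' (⟨v, self_mem_cyc A v⟩ : U)
            (fun h => hv0 (congrArg Subtype.val h))).1 h1 ⟨A v, cyc_inv A v (self_mem_cyc A v)⟩
          obtain ⟨c, hc⟩ := this
          exact ⟨c, congrArg Subtype.val hc⟩
        have hc1 : c ≠ 1 := by rintro rfl; apply hv; rw [← hc, one_smul]
        set S := LinearMap.ker (X - c • (1 : W →ₗ[K] W)) with hS
        have hs := J_step A X v S (by
          intro Z hZ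
          rw [hS, LinearMap.mem_ker, LinearMap.sub_apply, hZ v, ← hc]
          simp)
        have hdis : Disjoint S (LinearMap.ker (X - 1)) := by
          rw [Submodule.disjoint_def]
          intro w h2 h3
          rw [hS, LinearMap.mem_ker, LinearMap.sub_apply, sub_eq_zero] at h2
          rw [LinearMap.mem_ker, LinearMap.sub_apply, sub_eq_zero] at h3
          have h4 : (c - 1) • w = 0 := by
            rw [sub_smul, one_smul]
            simp only [LinearMap.smul_apply, Module.End.one_apply] at h2 h3
            rw [← h2, h3, sub_self]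
          exact (smul_eq_zero.1 h4).resolve_left (sub_ne_zero.2 hc1)
        have h5 := Submodule.finrank_add_finrank_le_of_disjoint hdis
        have h6 : (finrank K S : ℝ) + fix X ≤ finrank K W := by exact_mod_cast h5
        have hs' : (finrank K (J A X) : ℝ) ≤ finrank K S +
          finrank K (J (U.mapQ U A (cyc_inv A v)) X) := by exact_mod_cast hs
        rw [h1] at hq' hr2
        push_cast at hq' hr2
        rw [← hq']
        nlinarith
      · have h2 : (2 : ℝ) ≤ finrank K U := by exact_mod_cast (by omega : 2 ≤ finrank K U)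
        have hs := J_step A X v ⊤ (by intro Z _; trivial)
        rw [finrank_top] at hs
        have hs' : (finrank K (J A X) : ℝ) ≤ finrank K W +
          finrank K (J (U.mapQ U A (cyc_inv A v)) X) := by exact_mod_cast hs
        rw [← hq']
        have h7 : (finrank K U : ℝ) * fix X ≤ finrank K U * M :=
          mul_le_mul_of_nonneg_left hM1 (Nat.cast_nonneg _)
        have h8 : 2 * (finrank K W : ℝ) ≤ finrank K U * finrank K W :=
          mul_le_mul_of_nonneg_right h2 hW
        nlinarith

end Pool.Agent.H948Z.LS
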