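import Mathlib

set_option autoImplicit false

namespace Pool.Agent.H948Z.LS

/-- The normalised rank distance `rank (A - B) / n` on `GL(n, K)`. -/
noncomputable def dRank {K : Type*} [Field K] {n : ℕ} (A B : GL (Fin n) K) : ℝ :=
  (((A : Matrix (Fin n) (Fin n) K) - (B : Matrix (Fin n) (Fin n) K)).rank : ℝ) / n

/-- The group `G` is `ε`-approximable over the field `K`: for every finite `F ⊆ G` and `δ > 0`
there are `n ≥ 1` and a map `φ : G → GL(n, K)` that is `δ`-multiplicative on `F` and puts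
distinct elements of `F` at normalised rank distance more than `ε - δ`. -/
def Approximable (K : Type*) [Field K] (G : Type*) [Group G] (ε : ℝ) : Prop :=
  ∀ (F : Finset G) (δ : ℝ), 0 < δ → ∃ n : ℕ, 0 < n ∧ ∃ φ : G → GL (Fin n) K,
    (∀ g ∈ F, ∀ h ∈ F, dRank (φ g * φ h) (φ (g * h)) < δ) ∧
    (∀ g ∈ F, ∀ h ∈ F, g ≠ h → ε - δ < dRank (φ g) (φ h))

end Pool.Agent.H948Z.LS
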