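import Mathlib
import Pool.Agent.H948Z.LS1
import Pool.Agent.H948Z.LSDefs

set_option autoImplicit false

namespace Pool.Agent.H948Z.LS

open Module

universe u

variable {K : Type u} [Field K]

lemma fix_prod {V W : Type u} [AddCommGroup V] [Module K V] [AddCommGroup W] [Module K W]
    [FiniteDimensional K V] [FiniteDimensional K W] (A : V →ₗ[K] V) (X : W →ₗ[K] W) :
    fix (A.prodMap X) = fix A + fix X := by
  have h : A.prodMap X - 1 = (A - 1).prodMap (X - 1) := by
    ext v <;> simp
  unfold fix
  rw [h, LinearMap.ker_prodMap]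
  rw [← Module.finrank_prod]
  refine LinearEquiv.finrank_eq ?_
  exact
    { toFun := fun x => (⟨x.1.1, x.2.1⟩, ⟨x.1.2, x.2.2⟩)
      invFun := fun y => ⟨(y.1.1, y.2.1), y.1.2, y.2.2⟩
      map_add' := fun _ _ => rfl
      map_smul' := fun _ _ => rfl
      left_inv := fun _ => rfl
      right_inv := fun _ => rfl }

lemma fix_linHom {G : Type*} [Group G] {V W : Type u} [AddCommGroup V] [Module K V]
    [AddCommGroup W] [Module K W] (ρ : Representation K G V) (σ : Representation K G W) (g : G) :
    fix (Representation.linHom ρ σ g) = finrank K (J (ρ g) (σ g)) := by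
  have h : LinearMap.ker (Representation.linHom ρ σ g - 1) = J (ρ g) (σ g) := by
    ext Z
    rw [LinearMap.mem_ker, LinearMap.sub_apply, sub_eq_zero, mem_J]
    simp only [Representation.linHom_apply, Module.End.one_apply]
    constructor
    · intro h v
      have := LinearMap.congr_fun h (ρ g v)
      simpa using this
    · intro h
      ext v
      simp [h]
  unfold fix
  rw [h]

lemma amp {G : Type*} [Group G] {V : Type u} [AddCommGroup V] [Module K V] [FiniteDimensional K V]
    (hV : 0 < finrank K V) (ρ : Representation K G V) (k : ℕ) :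
    ∃ (W : Type u) (_ : AddCommGroup W) (_ : Module K W) (_ : FiniteDimensional K W)
      (σ : Representation K G W), 0 < finrank K W ∧ ∀ g : G,
        (1 - (rk (ρ g) : ℝ) / finrank K V / 2) ^ k * finrank K W ≤ fix (σ g) ∧
        2 * (fix (σ g) : ℝ) ≤ (1 + (1 - (rk (ρ g) : ℝ) / finrank K V / 2) ^ k) * finrank K W := by
  induction k with
  | zero =>
    refine ⟨K, inferInstance, inferInstance, inferInstance, Representation.trivial K G K, by simp,
      fun g => ?_⟩
    have h : fix (Representation.trivial K G K g) = 1 := by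
      unfold fix
      have : Representation.trivial K G K g - 1 = 0 := by ext; simp
      rw [this, LinearMap.ker_zero, finrank_top, Module.finrank_self]
    rw [h]; norm_num
  | succ k ih =>
    obtain ⟨W, _, _, _, σ, hW, hσ⟩ := ih
    refine ⟨(V →ₗ[K] W) × (V →ₗ[K] W), inferInstance, inferInstance, inferInstance,
      Representation.prod (Representation.linHom (Representation.trivial K G V) σ)
        (Representation.linHom ρ σ), ?_, fun g => ?_⟩
    · rw [Module.finrank_prod, Module.finrank_linearMap]; positivity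
    · have h1 : (Representation.prod (Representation.linHom (Representation.trivial K G V) σ)
        (Representation.linHom ρ σ)) g =
          (Representation.linHom (Representation.trivial K G V) σ g).prodMap
            (Representation.linHom ρ σ g) := rfl
      rw [h1, fix_prod, fix_linHom, fix_linHom, Module.finrank_prod, Module.finrank_linearMap]
      obtain ⟨hl, hu⟩ := hσ g
      set n := finrank K V with hn
      set m := finrank K W with hm
      set q : ℝ := 1 - (rk (ρ g) : ℝ) / n / 2 with hq
      have hn0 : (0 : ℝ) < n := by exact_mod_cast hV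
      have hm0 : (0 : ℝ) < m := by exact_mod_cast hW
      have hrf : (rk (ρ g) : ℝ) + fix (ρ g) = n := by exact_mod_cast rk_add_fix (ρ g)
      have hr0 : (0 : ℝ) ≤ rk (ρ g) := Nat.cast_nonneg _
      have hf0 : (0 : ℝ) ≤ fix (ρ g) := Nat.cast_nonneg _
      have hqn : q * (2 * n) = 2 * n - rk (ρ g) := by rw [hq]; field_simp
      have hq0 : 0 ≤ q := by
        by_contra hneg
        push Not at hneg
        have : q * (2 * n) < 0 := mul_neg_of_neg_of_pos hneg (by linarith)
        linarith
      have hqk : 0 ≤ q ^ k := pow_nonneg hq0 k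
      have ht : fix (Representation.trivial K G V g) = n := by
        unfold fix
        have : Representation.trivial K G V g - 1 = 0 := by ext; simp
        rw [this, LinearMap.ker_zero, finrank_top]
      have a1 := J_lower (Representation.trivial K G V g) (σ g)
      rw [ht] at a1
      have a2 := J_lower (ρ g) (σ g)
      have a3 := J_one_upper (Representation.trivial K G V g) (fun v => rfl) (σ g)
      have a4 := J_upper (σ g) ((1 + q ^ k) * m / 2) (by linarith) (by nlinarith) n V (ρ g) rfl
      have b1 : (n : ℝ) * fix (σ g) ≤ finrank K (J (Representation.trivial K G V g) (σ g)) := by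
        exact_mod_cast a1
      have b2 : (fix (ρ g) : ℝ) * fix (σ g) ≤ finrank K (J (ρ g) (σ g)) := by exact_mod_cast a2
      have b3 : (finrank K (J (Representation.trivial K G V g) (σ g)) : ℝ) ≤ n * fix (σ g) := by
        exact_mod_cast a3
      push_cast
      constructor
      · have c1 : q ^ (k + 1) * (n * m + n * m) = (2 * n - rk (ρ g)) * (q ^ k * m) := by
          rw [← hqn]; ring
        rw [c1]
        have c2 : (2 * n - rk (ρ g) : ℝ) * (q ^ k * m) ≤ (2 * n - rk (ρ g)) * fix (σ g) :=
          mul_le_mul_of_nonneg_left hl (by linarith)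
        have c3 : (2 * n - rk (ρ g) : ℝ) * fix (σ g) = n * fix (σ g) + fix (ρ g) * fix (σ g) := by
          rw [← hrf]; ring
        linarith
      · have c1 : (1 + q ^ (k + 1)) * (n * m + n * m) =
            2 * n * m + (2 * n - rk (ρ g)) * (q ^ k * m) := by
          rw [← hqn]; ring
        rw [c1, ← hm] at *
        nlinarith

/-- passing from an abstract representation to matrices -/
lemma toMat {G : Type*} [Group G] {W : Type u} [AddCommGroup W] [Module K W]
    [FiniteDimensional K W] (σ : Representation K G W) :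
    ∃ T : G →* GL (Fin (finrank K W)) K, ∀ g : G,
      ((T g : Matrix (Fin (finrank K W)) (Fin (finrank K W)) K) - 1).rank = rk (σ g) := by
  let b := Module.finBasis K W
  let S : G →* Matrix (Fin (finrank K W)) (Fin (finrank K W)) K :=
    ((LinearMap.toMatrixAlgEquiv b).toMonoidHom).comp σ
  refine ⟨S.toHomUnits, fun g => ?_⟩
  have h : ((S.toHomUnits g : GL (Fin (finrank K W)) K) :
      Matrix (Fin (finrank K W)) (Fin (finrank K W)) K) - 1 = LinearMap.toMatrix b b (σ g - 1) := by
    rw [map_sub, LinearMap.toMatrix_one]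
    rfl
  rw [h, Matrix.rank_eq_finrank_range_toLin _ b b, Matrix.toLin_toMatrix]
  rfl

/-- the standard representation of the general linear group -/
noncomputable def stdRep (K : Type u) [Field K] (n : ℕ) :
    Representation K (GL (Fin n) K) (Fin n → K) :=
  ((Matrix.toLinAlgEquiv' (R := K) (n := Fin n)).toMonoidHom).comp (Units.coeHom _)

lemma stdRep_apply {n : ℕ} (C : GL (Fin n) K) :
    stdRep K n C = Matrix.toLin' (C : Matrix (Fin n) (Fin n) K) := rfl

lemma rank_eq_range {n : ℕ} (C : Matrix (Fin n) (Fin n) K) :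
    C.rank = finrank K (LinearMap.range (Matrix.toLin' C)) := rfl

lemma rk_stdRep {n : ℕ} (C : GL (Fin n) K) :
    rk (stdRep K n C) = ((C : Matrix (Fin n) (Fin n) K) - 1).rank := by
  rw [rank_eq_range, map_sub, Matrix.toLin'_one, stdRep_apply]
  rfl

lemma dRank_eq {n : ℕ} (A B : GL (Fin n) K) :
    dRank A B = (((A * B⁻¹ : GL (Fin n) K) : Matrix (Fin n) (Fin n) K) - 1).rank / (n : ℝ) := by
  unfold dRank
  congr 2
  have h : ((A * B⁻¹ : GL (Fin n) K) : Matrix (Fin n) (Fin n) K) - 1 =
      ((A : Matrix (Fin n) (Fin n) K) - B) * ((B⁻¹ : GL (Fin n) K) : Matrix (Fin n) (Fin n) K) := by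
    rw [sub_mul, Units.val_mul, Units.mul_inv]
  rw [h, Matrix.rank_mul_eq_left_of_isUnit_det]
  exact (Matrix.isUnit_iff_isUnit_det _).1 (Units.isUnit _)

lemma dRank_nonneg {n : ℕ} (A B : GL (Fin n) K) : 0 ≤ dRank A B := by
  unfold dRank; positivity

lemma dRank_le_one {n : ℕ} (hn : 0 < n) (A B : GL (Fin n) K) : dRank A B ≤ 1 := by
  unfold dRank
  rw [div_le_one (by exact_mod_cast hn)]
  exact_mod_cast Matrix.rank_le_width _

lemma amp_mat {n : ℕ} (hn : 0 < n) (k : ℕ) :
    ∃ m : ℕ, 0 < m ∧ ∃ T : GL (Fin n) K →* GL (Fin m) K, ∀ A B : GL (Fin n) K,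
      (1 - (1 - dRank A B / 2) ^ k) / 2 ≤ dRank (T A) (T B) ∧
      dRank (T A) (T B) ≤ 1 - (1 - dRank A B / 2) ^ k := by
  have hV : finrank K (Fin n → K) = n := by simp
  obtain ⟨W, _, _, _, σ, hW, hσ⟩ := amp (K := K) (by rw [hV]; exact hn) (stdRep K n) k
  obtain ⟨T, hT⟩ := toMat σ
  refine ⟨finrank K W, hW, T, fun A B => ?_⟩
  obtain ⟨h1, h2⟩ := hσ (A * B⁻¹)
  rw [hV, rk_stdRep, ← dRank_eq] at h1 h2
  rw [dRank_eq (T A), ← map_inv, ← map_mul, hT]
  have h3 : (rk (σ (A * B⁻¹)) : ℝ) + fix (σ (A * B⁻¹)) = finrank K W := by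
    exact_mod_cast rk_add_fix _
  have hm0 : (0 : ℝ) < finrank K W := by exact_mod_cast hW
  constructor
  · rw [le_div_iff₀ hm0]; nlinarith
  · rw [div_le_iff₀ hm0]; nlinarith

theorem approx_half {G : Type*} [Group G] {ε : ℝ} (hε : 0 < ε) (h : Approximable K G ε) :
    Approximable K G (1 / 2) := by
  intro F δ hδ
  obtain ⟨k, hk⟩ : ∃ k : ℕ, (1 - min ε 1 / 4) ^ k < δ :=
    exists_pow_lt_of_lt_one hδ (by have : 0 < min ε 1 := lt_min hε one_pos; linarith)
  have hδ' : 0 < min (ε / 2) (δ / (k + 1)) := lt_min (by linarith) (by positivity)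
  obtain ⟨n, hn, φ, h1, h2⟩ := h F _ hδ'
  obtain ⟨m, hm, T, hT⟩ := amp_mat (K := K) hn k
  refine ⟨m, hm, fun g => T (φ g), fun g hg h hh => ?_, fun g hg h hh hgh => ?_⟩
  · rw [← map_mul]
    refine lt_of_le_of_lt (hT _ _).2 ?_
    set d := dRank (φ g * φ h) (φ (g * h)) with hd
    have a1 : d < δ / (k + 1) := lt_of_lt_of_le (h1 g hg h hh) (min_le_right _ _)
    have a2 : 0 ≤ d := dRank_nonneg _ _
    have a3 : d ≤ 1 := dRank_le_one hn _ _
    have a4 := one_add_mul_le_pow (a := -(d / 2)) (by linarith) k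
    rw [lt_div_iff₀ (by positivity)] at a1
    have a5 : (1 + -(d / 2)) = 1 - d / 2 := by ring
    rw [a5] at a4
    have : (0 : ℝ) ≤ k := Nat.cast_nonneg k
    nlinarith
  · refine lt_of_lt_of_le ?_ (hT _ _).1
    set d := dRank (φ g) (φ h) with hd
    have a1 : ε - ε / 2 < d :=
      lt_of_le_of_lt (by linarith [min_le_left (ε / 2) (δ / (k + 1))]) (h2 g hg h hh hgh)
    have a3 : d ≤ 1 := dRank_le_one hn _ _
    have a4 : (1 - d / 2) ^ k ≤ (1 - min ε 1 / 4) ^ k :=
      pow_le_pow_left₀ (by linarith) (by linarith [min_le_left ε 1]) k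
    linarith

lemma approx_mono {G : Type*} [Group G] {ε ε' : ℝ} (hle : ε ≤ ε') (h : Approximable K G ε') :
    Approximable K G ε := by
  intro F δ hδ
  obtain ⟨n, hn, φ, h1, h2⟩ := h F δ hδ
  exact ⟨n, hn, φ, h1, fun g hg h hh hgh => lt_of_le_of_lt (by linarith) (h2 g hg h hh hgh)⟩

end Pool.Agent.H948Z.LS
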