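import Mathlib
import Pool.Agent.H948Z.LS2

set_option autoImplicit false

namespace Pool.Agent.H948Z.LS

open Module

universe u

variable {K : Type u} [Field K]

lemma finrank_map_add_inf_ker {V : Type u} [AddCommGroup V] [Module K V] [FiniteDimensional K V]
    (W : Submodule K V) (f : V →ₗ[K] V) :
    finrank K (W.map f) + finrank K (W ⊓ LinearMap.ker f : Submodule K V) = finrank K W := by
  have h1 := LinearMap.finrank_range_add_finrank_ker (f ∘ₗ W.subtype)
  rw [LinearMap.range_comp, Submodule.range_subtype, LinearMap.ker_comp] at h1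
  rw [← h1, ← Submodule.finrank_map_subtype_eq W (Submodule.comap W.subtype (LinearMap.ker f)),
    Submodule.map_comap_subtype]

lemma sum_bound {H : Type} [CommGroup H] [Fintype H] (hH : ∀ g : H, g * g = 1)
    {V : Type u} [AddCommGroup V] [Module K V] [FiniteDimensional K V] (a : H → V →ₗ[K] V)
    (n : ℕ) : ∀ W : Submodule K V, finrank K W = n → (∀ g, ∀ w ∈ W, a g w ∈ W) →
      (∀ g h, ∀ w ∈ W, a g (a h w) = a (g * h) w) → (∀ w ∈ W, a 1 w = w) →
      2 * ∑ g, finrank K (W.map (a g - 1)) ≤ Fintype.card H * n := by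
  induction n using Nat.strong_induction_on with
  | _ n ih =>
    intro W hn h1 h2 h3
    by_cases hs : ∃ s, ∀ w ∈ W, a s w = -w
    · obtain ⟨s, hs⟩ := hs
      have k1 : ∀ g, finrank K (W.map (a (g * s) - 1)) + finrank K (W.map (a g - 1)) ≤ n := by
        intro g
        have k2 : W.map (a (g * s) - 1) ≤ W ⊓ LinearMap.ker (a g - 1) := by
          rintro _ ⟨w, hw, rfl⟩
          have hw' : w ∈ W := hw
          refine ⟨?_, ?_⟩
          · exact W.sub_mem (h1 _ _ hw') hw'
          · have e1 : a (g * s) w = - a g w := by rw [← h2 g s w hw', hs w hw', map_neg]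
            have e2 : a g (a g w) = w := by rw [h2 g g w hw', hH, h3 w hw']
            simp only [SetLike.mem_coe, LinearMap.mem_ker, LinearMap.sub_apply,
              Module.End.one_apply, e1, map_sub, map_neg, e2]
            abel
        have k3 := Submodule.finrank_mono k2
        have k4 := finrank_map_add_inf_ker W (a g - 1)
        omega
      have k5 : ∑ g, finrank K (W.map (a (g * s) - 1)) = ∑ g, finrank K (W.map (a g - 1)) :=
        Equiv.sum_comp (Equiv.mulRight s) (fun g => finrank K (W.map (a g - 1)))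
      calc 2 * ∑ g, finrank K (W.map (a g - 1))
          = ∑ g, (finrank K (W.map (a (g * s) - 1)) + finrank K (W.map (a g - 1))) := by
            rw [Finset.sum_add_distrib, k5]; ring
        _ ≤ ∑ _g : H, n := Finset.sum_le_sum fun g _ => k1 g
        _ = Fintype.card H * n := by simp
    · by_cases ht : ∀ s, ∀ w ∈ W, a s w = w
      · have : ∀ g, finrank K (W.map (a g - 1)) = 0 := by
          intro g
          rw [Submodule.finrank_eq_zero, eq_bot_iff]
          rintro _ ⟨w, hw, rfl⟩
          simp [ht g w hw]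
        simp [this]
      · push Not at hs ht
        obtain ⟨s, w₀, hw₀, hs₀⟩ := ht
        obtain ⟨w₁, hw₁, hs₁⟩ := hs s
        obtain ⟨w₂, hw₂, hs₂⟩ := hs 1
        have h2K : (2 : K) ≠ 0 := by
          intro h
          apply hs₂
          rw [h3 w₂ hw₂, eq_neg_iff_add_eq_zero, ← two_smul K w₂, h, zero_smul]
        set P : Submodule K V := W ⊓ LinearMap.ker (a s - 1) with hP
        set N : Submodule K V := W ⊓ LinearMap.ker (a s + 1) with hN
        have mP : ∀ w, w ∈ P ↔ w ∈ W ∧ a s w = w := by
          intro w; simp [hP, sub_eq_zero]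
        have mN : ∀ w, w ∈ N ↔ w ∈ W ∧ a s w = -w := by
          intro w; simp [hN, add_eq_zero_iff_eq_neg]
        have hss : ∀ w ∈ W, a s (a s w) = w := by
          intro w hw; rw [h2 s s w hw, hH, h3 w hw]
        have hsup : P ⊔ N = W := by
          apply le_antisymm (sup_le inf_le_left inf_le_left)
          intro w hw
          rw [Submodule.mem_sup]
          refine ⟨(2 : K)⁻¹ • (w + a s w), ?_, (2 : K)⁻¹ • (w - a s w), ?_, ?_⟩
          · apply P.smul_mem
            rw [mP]
            exact ⟨W.add_mem hw (h1 _ _ hw), by rw [map_add, hss w hw, add_comm]⟩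
          · apply N.smul_mem
            rw [mN]
            exact ⟨W.sub_mem hw (h1 _ _ hw), by rw [map_sub, hss w hw, neg_sub]⟩
          · rw [← smul_add]
            have : w + a s w + (w - a s w) = (2 : K) • w := by rw [two_smul]; abel
            rw [this, smul_smul, inv_mul_cancel₀ h2K, one_smul]
        have hinf : P ⊓ N = ⊥ := by
          rw [eq_bot_iff]
          rintro w ⟨k1, k2⟩
          have k3 := ((mP w).1 k1).2
          have k4 := ((mN w).1 k2).2
          rw [k3, eq_neg_iff_add_eq_zero, ← two_smul K w] at k4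
          exact (smul_eq_zero.1 k4).resolve_left h2K
        have hdim := Submodule.finrank_sup_add_finrank_inf_eq P N
        rw [hsup, hinf, finrank_bot, hn] at hdim
        have hPlt : finrank K P < n := by
          rw [← hn]
          apply Submodule.finrank_lt_finrank_of_lt
          refine lt_of_le_of_ne inf_le_left fun h => hs₀ ?_
          have : w₀ ∈ P := by rw [h]; exact hw₀
          exact ((mP _).1 this).2
        have hNlt : finrank K N < n := by
          rw [← hn]
          apply Submodule.finrank_lt_finrank_of_lt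
          refine lt_of_le_of_ne inf_le_left fun h => hs₁ ?_
          have : w₁ ∈ N := by rw [h]; exact hw₁
          exact ((mN _).1 this).2
        have hcomm : ∀ g, ∀ w ∈ W, a s (a g w) = a g (a s w) := by
          intro g w hw; rw [h2 _ _ _ hw, h2 _ _ _ hw, mul_comm]
        have iP := ih _ hPlt P rfl
          (fun g w hw => by
            rw [mP] at hw ⊢
            exact ⟨h1 _ _ hw.1, by rw [hcomm g w hw.1, hw.2]⟩)
          (fun g h w hw => h2 g h w ((mP w).1 hw).1) (fun w hw => h3 w ((mP w).1 hw).1)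
        have iN := ih _ hNlt N rfl
          (fun g w hw => by
            rw [mN] at hw ⊢
            exact ⟨h1 _ _ hw.1, by rw [hcomm g w hw.1, hw.2, map_neg]⟩)
          (fun g h w hw => h2 g h w ((mN w).1 hw).1) (fun w hw => h3 w ((mN w).1 hw).1)
        have k6 : ∀ g, finrank K (W.map (a g - 1)) ≤
            finrank K (P.map (a g - 1)) + finrank K (N.map (a g - 1)) := by
          intro g
          have : W.map (a g - 1) = P.map (a g - 1) ⊔ N.map (a g - 1) := by
            rw [← Submodule.map_sup, hsup]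
          rw [this]
          exact Submodule.finrank_add_le_finrank_add_finrank _ _
        have k7 := Finset.sum_le_sum (s := Finset.univ) fun g _ => k6 g
        rw [Finset.sum_add_distrib] at k7
        have k8 : Fintype.card H * n = Fintype.card H * finrank K P + Fintype.card H * finrank K N := by
          rw [← mul_add, ← hdim]; simp
        omega

lemma finrank_iInf_ker {V : Type u} [AddCommGroup V] [Module K V] [FiniteDimensional K V]
    {ι : Type} [Fintype ι] (f : ι → V →ₗ[K] V) :
    finrank K V ≤ finrank K (⨅ i, LinearMap.ker (f i) : Submodule K V) +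
      ∑ i, finrank K (LinearMap.range (f i)) := by
  let Φ : V →ₗ[K] ((i : ι) → LinearMap.range (f i)) := LinearMap.pi fun i => (f i).rangeRestrict
  have h1 := LinearMap.finrank_range_add_finrank_ker Φ
  have h2 : LinearMap.ker Φ = ⨅ i, LinearMap.ker (f i) := by
    simp only [Φ, LinearMap.ker_pi, LinearMap.ker_rangeRestrict]
  have h3 := Submodule.finrank_le (LinearMap.range Φ)
  rw [Module.finrank_pi_fintype] at h3
  rw [h2] at h1
  omega

theorem not_approx {H : Type} [CommGroup H] [Fintype H] (hH : ∀ g : H, g * g = 1) {ε : ℝ}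
    (hε : (Fintype.card H : ℝ) < 2 * ((Fintype.card H : ℝ) - 1) * ε) : ¬ Approximable K H ε := by
  classical
  intro h
  set N : ℝ := (Fintype.card H : ℝ) with hN
  have hN1 : 1 ≤ N := by rw [hN]; exact_mod_cast Fintype.card_pos
  set δ : ℝ := (2 * (N - 1) * ε - N) / (2 * N * (1 + N ^ 2)) with hδ
  have hδ0 : 0 < δ := div_pos (by linarith) (by positivity)
  obtain ⟨n, hn, φ, h1, h2⟩ := h Finset.univ δ hδ0
  have hn0 : (0 : ℝ) < n := by exact_mod_cast hn
  let a : H → (Fin n → K) →ₗ[K] (Fin n → K) := fun g => stdRep K n (φ g)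
  let f : H × H → (Fin n → K) →ₗ[K] (Fin n → K) := fun p => a p.1 * a p.2 - a (p.1 * p.2)
  have hf : ∀ p, (finrank K (LinearMap.range (f p)) : ℝ) ≤ δ * n := by
    intro p
    have := h1 p.1 (Finset.mem_univ _) p.2 (Finset.mem_univ _)
    unfold dRank at this
    rw [div_lt_iff₀ hn0, rank_eq_range, map_sub, ← stdRep_apply, ← stdRep_apply, map_mul] at this
    exact this.le
  set V₀ : Submodule K (Fin n → K) := ⨅ p, LinearMap.ker (f p) with hV₀
  have hV₀d : (n : ℝ) ≤ finrank K V₀ + N ^ 2 * (δ * n) := by
    have k1 := finrank_iInf_ker f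
    rw [← hV₀, Module.finrank_fin_fun] at k1
    have k2 : (n : ℝ) ≤ finrank K V₀ + ∑ p, (finrank K (LinearMap.range (f p)) : ℝ) := by
      exact_mod_cast k1
    have k3 := Finset.sum_le_sum (s := Finset.univ) fun p _ => hf p
    rw [Finset.sum_const, Finset.card_univ, Fintype.card_prod, nsmul_eq_mul] at k3
    push_cast at k3
    rw [← hN] at k3
    nlinarith
  have m0 : ∀ v ∈ V₀, ∀ g h, a g (a h v) = a (g * h) v := by
    intro v hv g h
    rw [hV₀, Submodule.mem_iInf] at hv
    have := hv (g, h)
    rw [LinearMap.mem_ker, LinearMap.sub_apply, sub_eq_zero] at this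
    exact this
  have hinj : ∀ g, Function.Injective (a g) := fun g => (stdRep K n).apply_bijective (φ g) |>.1
  have m1 : ∀ v ∈ V₀, a 1 v = v := by
    intro v hv
    apply hinj 1
    rw [m0 v hv, mul_one]
  set W : Submodule K (Fin n → K) := ⨆ g, V₀.map (a g) with hW
  have hVW : V₀ ≤ W := by
    intro v hv
    exact Submodule.mem_iSup_of_mem 1 ⟨v, hv, m1 v hv⟩
  have key : ∀ w ∈ W, (∀ g, a g w ∈ W) ∧ (∀ g h, a g (a h w) = a (g * h) w) ∧ a 1 w = w := by
    intro w hw
    refine Submodule.iSup_induction (fun g => V₀.map (a g))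
      (motive := fun w => (∀ g, a g w ∈ W) ∧ (∀ g h, a g (a h w) = a (g * h) w) ∧ a 1 w = w)
      hw ?_ ?_ ?_
    · rintro s _ ⟨v, hv, rfl⟩
      refine ⟨fun g => ?_, fun g h => ?_, ?_⟩
      · exact Submodule.mem_iSup_of_mem (g * s) ⟨v, hv, (m0 v hv g s).symm⟩
      · rw [m0 v hv, m0 v hv, m0 v hv, mul_assoc]
      · rw [m0 v hv, one_mul]
    · simp
    · rintro x y ⟨x1, x2, x3⟩ ⟨y1, y2, y3⟩
      refine ⟨fun g => ?_, fun g h => ?_, ?_⟩
      · rw [map_add]; exact W.add_mem (x1 g) (y1 g)
      · simp only [map_add, x2, y2]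
      · rw [map_add, x3, y3]
  have hsum := sum_bound hH a _ W rfl (fun g w hw => (key w hw).1 g)
    (fun g h w hw => (key w hw).2.1 g h) (fun w hw => (key w hw).2.2)
  have hWn : finrank K W ≤ n := by
    have := Submodule.finrank_le W
    rwa [Module.finrank_fin_fun] at this
  have hVWd : (finrank K V₀ : ℝ) ≤ finrank K W := by exact_mod_cast Submodule.finrank_mono hVW
  have hlow : ∀ g ∈ (Finset.univ.erase (1 : H)),
      (ε - δ - N ^ 2 * δ) * n ≤ (finrank K (W.map (a g - 1)) : ℝ) := by
    intro g hg
    have k1 := h2 g (Finset.mem_univ _) 1 (Finset.mem_univ _) (Finset.ne_of_mem_erase hg)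
    unfold dRank at k1
    rw [lt_div_iff₀ hn0, rank_eq_range, map_sub, ← stdRep_apply, ← stdRep_apply] at k1
    have k2 := LinearMap.finrank_range_add_finrank_ker (a g - a 1)
    rw [Module.finrank_fin_fun] at k2
    have k3 : W ⊓ LinearMap.ker (a g - 1) ≤ LinearMap.ker (a g - a 1) := by
      rintro w ⟨k4, k5⟩
      have k6 : (a g - 1) w = 0 := k5
      rw [LinearMap.mem_ker, LinearMap.sub_apply, (key w k4).2.2]
      simpa using k6
    have k4 := Submodule.finrank_mono k3
    have k5 := finrank_map_add_inf_ker W (a g - 1)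
    have k6 : finrank K (LinearMap.range (a g - a 1)) + finrank K W ≤
        n + finrank K (W.map (a g - 1)) := by omega
    have k7 : (finrank K (LinearMap.range (a g - a 1)) : ℝ) + finrank K W ≤
        n + finrank K (W.map (a g - 1)) := by exact_mod_cast k6
    have k8 : (ε - δ) * n < (finrank K (LinearMap.range (a g - a 1)) : ℝ) := k1
    nlinarith
  have k1 := Finset.sum_le_sum hlow
  rw [Finset.sum_const, Finset.card_erase_of_mem (Finset.mem_univ _), Finset.card_univ,
    nsmul_eq_mul, Nat.cast_sub Fintype.card_pos, ← hN] at k1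
  have k2 : ∑ g ∈ Finset.univ.erase (1 : H), (finrank K (W.map (a g - 1)) : ℝ) ≤
      ∑ g, (finrank K (W.map (a g - 1)) : ℝ) :=
    Finset.sum_le_sum_of_subset_of_nonneg (Finset.erase_subset _ _) fun _ _ _ => Nat.cast_nonneg _
  have k3 : 2 * ∑ g, (finrank K (W.map (a g - 1)) : ℝ) ≤ N * finrank K W := by
    rw [hN]; exact_mod_cast hsum
  have k4 : (finrank K W : ℝ) ≤ n := by exact_mod_cast hWn
  have k5 : N * finrank K W ≤ N * n := mul_le_mul_of_nonneg_left k4 (by linarith)
  have k6 : 2 * ((N - 1) * (ε - δ - N ^ 2 * δ)) * n ≤ N * n := by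
    push_cast at k1
    nlinarith
  have k7 : 2 * ((N - 1) * (ε - δ - N ^ 2 * δ)) ≤ N := le_of_mul_le_mul_right k6 hn0
  have k8 : δ * (2 * N * (1 + N ^ 2)) = 2 * (N - 1) * ε - N := by
    rw [hδ]; field_simp
  have k9 : 0 < δ * (1 + N ^ 2) := by positivity
  nlinarith

theorem approx_finite (H : Type) [Group H] [Fintype H] : Approximable K H (1 / 2) := by
  classical
  let σ : Representation K H (ULift.{u} H → K) :=
    { toFun := fun g =>
        { toFun := fun f x => f ⟨x.down * g⟩
          map_add' := fun _ _ => rfl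
          map_smul' := fun _ _ => rfl }
      map_one' := by ext f x; simp
      map_mul' := fun g h => by ext f x; simp [mul_assoc] }
  obtain ⟨T, hT⟩ := toMat σ
  have hm : 0 < finrank K (ULift.{u} H → K) := by
    rw [Module.finrank_fintype_fun_eq_card]; exact Fintype.card_pos
  have hm0 : (0 : ℝ) < finrank K (ULift.{u} H → K) := by exact_mod_cast hm
  refine approx_half (ε := 1 / finrank K (ULift.{u} H → K)) (by positivity) ?_
  intro F δ hδ
  refine ⟨_, hm, T, fun g _ h _ => ?_, fun g _ h _ hgh => ?_⟩
  · rw [map_mul]; unfold dRank; simpa using hδ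
  · rw [dRank_eq, ← map_inv, ← map_mul, hT]
    have : 1 ≤ rk (σ (g * h⁻¹)) := by
      unfold rk
      rw [Nat.one_le_iff_ne_zero, Ne, Submodule.finrank_eq_zero, LinearMap.range_eq_bot,
        sub_eq_zero]
      intro h0
      have h1 := congrFun (LinearMap.congr_fun h0 (Pi.single ⟨1⟩ 1)) ⟨1⟩
      have h2 : (⟨g * h⁻¹⟩ : ULift.{u} H) ≠ ⟨1⟩ := by
        intro h3
        exact hgh (mul_inv_eq_one.1 (congrArg ULift.down h3))
      simp [σ, Pi.single_eq_of_ne h2] at h1
    have h3 : (1 : ℝ) ≤ rk (σ (g * h⁻¹)) := by exact_mod_cast this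
    have h4 := div_le_div_of_nonneg_right h3 hm0.le
    linarith

theorem threshold (K : Type u) [Field K] (ε : ℝ) (hε : 0 < ε) :
    (∀ (G : Type) [Group G] [Countable G], Approximable K G ε ↔ Approximable K G (1 / 4)) ↔
      ε ≤ 1 / 2 := by
  constructor
  · intro h
    by_contra hlt
    push Not at hlt
    obtain ⟨k, hk⟩ : ∃ k : ℕ, 2 * ε / (2 * ε - 1) < 2 ^ k := pow_unbounded_of_one_lt _ one_lt_two
    have h1 := (h (Fin k → ℤˣ)).2 (approx_mono (by norm_num) (approx_finite _))
    refine not_approx (fun g => ?_) ?_ h1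
    · ext i; simp [Int.units_mul_self]
    · have : (Fintype.card (Fin k → ℤˣ) : ℝ) = 2 ^ k := by simp
      rw [this]
      rw [div_lt_iff₀ (by linarith)] at hk
      linarith
  · intro h G _ _
    exact ⟨fun h1 => approx_mono (by norm_num) (approx_half hε h1),
      fun h1 => approx_mono h (approx_half (by norm_num) h1)⟩

end Pool.Agent.H948Z.LS
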