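import Mathlib

set_option autoImplicit false

namespace Pool.Agent.H948Z.SB

/-- Serre's condition `R_η`: the localisation at every prime of height at most `η` is a regular
local ring. -/
def SerreR (η : ℕ) (S : Type) [CommRing S] : Prop :=
  ∀ (p : Ideal S) [p.IsPrime], p.height ≤ η → IsRegularLocalRing (Localization.AtPrime p)

/-- An `R_η`-sequence: a regular sequence `G_1, ..., G_s` such that `R / (G_1, ..., G_i)`
satisfies `R_η` for every `0 ≤ i ≤ s`. -/
def IsSerreSeq (η : ℕ) {R : Type} [CommRing R] (G : List R) : Prop :=
  RingTheory.Sequence.IsRegular R G ∧ ∀ i ≤ G.length, SerreR η (R ⧸ Ideal.ofList (G.take i))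

/-- The property of `s` in the definition of the function `B*(n, d)`: over every algebraically
closed field, for any number `N` of variables and any `n` forms `F_i` of positive degree at most
`d`, there are `t ≤ s` forms `G_j` of degree `e_j ≤ d` which form a regular sequence, generate a
subalgebra containing the `F_i`, and such that every linearly independent sequence of forms, each
a linear combination of the `G_j` of one common degree, is an `R_η`-sequence. -/
def SmallSubalgebraBound (η n d s : ℕ) : Prop :=
  ∀ (K : Type) [Field K] [IsAlgClosed K] (N : ℕ) (F : Fin n → MvPolynomial (Fin N) K),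
    (∀ i, ∃ m, 0 < m ∧ m ≤ d ∧ (F i).IsHomogeneous m) →
    ∃ (t : ℕ) (G : Fin t → MvPolynomial (Fin N) K) (e : Fin t → ℕ), t ≤ s ∧
      (∀ j, e j ≤ d ∧ (G j).IsHomogeneous (e j)) ∧
      RingTheory.Sequence.IsRegular (MvPolynomial (Fin N) K) (List.ofFn G) ∧
      (∀ i, F i ∈ Algebra.adjoin K (Set.range G)) ∧
      ∀ (m : ℕ) (H : Fin m → MvPolynomial (Fin N) K), LinearIndependent K H →
        (∀ k, ∃ c : ℕ, H k ∈ Submodule.span K (G '' {j | e j = c})) →
        IsSerreSeq η (List.ofFn H)

/-- The function `B*(n, d)` for the parameter `η`: the least `s` with the property above (with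
value infinity if there were none). -/
noncomputable def etaB (η n d : ℕ) : ℕ∞ :=
  ⨅ (s : ℕ) (_ : SmallSubalgebraBound η n d s), (s : ℕ∞)

end Pool.Agent.H948Z.SB
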