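import Mathlib
import Pool.Agent.H948Z.SBDefs

set_option autoImplicit false

namespace Pool.Agent.H948Z.SB

open MvPolynomial

lemma hc_mul {σ K : Type} [Field K] (a b : MvPolynomial σ K) (n : ℕ) :
    homogeneousComponent n (a * b) =
      ∑ ij ∈ Finset.HasAntidiagonal.antidiagonal n,
        homogeneousComponent ij.1 a * homogeneousComponent ij.2 b := by
  classical
  let _ : GradedAlgebra (homogeneousSubmodule σ K) := MvPolynomial.gradedAlgebra
  have h : ∀ (φ : MvPolynomial σ K) (i : ℕ),
      ((DirectSum.decompose (homogeneousSubmodule σ K) φ i : homogeneousSubmodule σ K i) :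
        MvPolynomial σ K) = homogeneousComponent i φ := fun φ i =>
    decomposition.decompose'_apply φ i
  rw [← h, DirectSum.decompose_mul, DirectSum.coe_mul_apply_eq_sum_antidiagonal]
  simp only [h]

lemma not_regular {R : Type} [CommRing R] (l : List R) (q : R) (hq : q ∈ Ideal.ofList l) :
    ¬ RingTheory.Sequence.IsRegular R (l ++ [q]) := by
  rintro ⟨h1, h2⟩
  rw [RingTheory.Sequence.isWeaklyRegular_append_iff,
    RingTheory.Sequence.isWeaklyRegular_singleton_iff] at h1
  have h3 : (Submodule.Quotient.mk 1 : R ⧸ (Ideal.ofList l • ⊤ : Submodule R R)) = 0 := by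
    apply h1.2
    simp only [smul_zero]
    rw [← Submodule.Quotient.mk_smul, Submodule.Quotient.mk_eq_zero]
    exact Submodule.smul_mem_smul hq Submodule.mem_top
  rw [Submodule.Quotient.mk_eq_zero] at h3
  apply h2
  symm
  rw [Ideal.smul_eq_mul, Ideal.mul_top] at h3 ⊢
  rw [Ideal.eq_top_iff_one, Ideal.ofList_append]
  exact Ideal.mem_sup_left h3

section
variable {K : Type} [Field K] {N t : ℕ} (G : Fin t → MvPolynomial (Fin N) K) (e : Fin t → ℕ)

lemma span_le (hG : ∀ j, (G j).IsHomogeneous (e j)) (c : ℕ) :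
    Submodule.span K (G '' {j | e j = c}) ≤ homogeneousSubmodule (Fin N) K c := by
  rw [Submodule.span_le]
  rintro _ ⟨j, hj, rfl⟩
  have : e j = c := hj
  rw [← this]
  exact hG j

lemma adjoin_components (hG : ∀ j, (G j).IsHomogeneous (e j)) (f : MvPolynomial (Fin N) K)
    (hf : f ∈ Algebra.adjoin K (Set.range G)) :
    homogeneousComponent 1 f ∈ Submodule.span K (G '' {j | e j = 1}) ∧
    homogeneousComponent 2 f ∈ Submodule.span K (G '' {j | e j = 2}) ⊔
      Submodule.span K (G '' {j | e j = 1}) * Submodule.span K (G '' {j | e j = 1}) := by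
  induction hf using Algebra.adjoin_induction with
  | mem x hx =>
    obtain ⟨j, rfl⟩ := hx
    rw [homogeneousComponent_of_mem (hG j), homogeneousComponent_of_mem (hG j)]
    constructor
    · split_ifs with h
      · exact Submodule.subset_span ⟨j, h.symm, rfl⟩
      · exact Submodule.zero_mem _
    · split_ifs with h
      · exact Submodule.mem_sup_left (Submodule.subset_span ⟨j, h.symm, rfl⟩)
      · exact Submodule.zero_mem _
  | algebraMap r =>
    have h0 : (algebraMap K (MvPolynomial (Fin N) K) r) ∈ homogeneousSubmodule (Fin N) K 0 :=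
      isHomogeneous_C _ r
    rw [homogeneousComponent_of_mem h0, homogeneousComponent_of_mem h0]
    simp
  | add x y _ _ hx hy =>
    rw [map_add, map_add]
    exact ⟨Submodule.add_mem _ hx.1 hy.1, Submodule.add_mem _ hx.2 hy.2⟩
  | mul x y _ _ hx hy =>
    rw [hc_mul, hc_mul]
    simp only [Finset.Nat.antidiagonal_succ, Finset.Nat.antidiagonal_zero, Finset.sum_cons,
      Finset.sum_map, Finset.sum_singleton, Function.Embedding.prodMap, Function.Embedding.coeFn_mk,
      Prod.map, Function.Embedding.refl_apply, homogeneousComponent_zero, Nat.succ_eq_add_one,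
      zero_add, Nat.reduceAdd]
    rw [mul_comm _ (C (coeff 0 y)), mul_comm _ (C (coeff 0 y))]
    simp only [← smul_eq_C_mul]
    refine ⟨Submodule.add_mem _ (Submodule.smul_mem _ _ hy.1) (Submodule.smul_mem _ _ hx.1),
      Submodule.add_mem _ (Submodule.smul_mem _ _ hy.2) (Submodule.add_mem _ ?_
        (Submodule.smul_mem _ _ hx.2))⟩
    exact Submodule.mem_sup_right (Submodule.mul_mem_mul hx.1 hy.1)

lemma pderiv_mem (L : Submodule K (MvPolynomial (Fin N) K))
    (hL : L ≤ homogeneousSubmodule (Fin N) K 1) (f : MvPolynomial (Fin N) K) (hf : f ∈ L * L)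
    (i : Fin N) : pderiv i f ∈ L := by
  have h1 : ∀ a ∈ L, ∃ c : K, pderiv i a = C c := by
    intro a ha
    have h2 := hL ha
    rw [homogeneousSubmodule_one_eq_span_X] at h2
    clear ha
    induction h2 using Submodule.span_induction with
    | mem x hx =>
      obtain ⟨k, rfl⟩ := hx
      by_cases h : k = i
      · exact ⟨1, by simp [h]⟩
      · exact ⟨0, by simp [pderiv_X_of_ne h]⟩
    | zero => exact ⟨0, by simp⟩
    | add x y _ _ hx hy =>
      obtain ⟨c, hc⟩ := hx
      obtain ⟨d, hd⟩ := hy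
      exact ⟨c + d, by rw [map_add, hc, hd, map_add]⟩
    | smul r x _ hx =>
      obtain ⟨c, hc⟩ := hx
      exact ⟨r * c, by rw [Derivation.map_smul, hc, smul_eq_C_mul, map_mul]⟩
  refine Submodule.mul_induction_on hf ?_ ?_
  · intro a ha b hb
    obtain ⟨c, hc⟩ := h1 a ha
    obtain ⟨d, hd⟩ := h1 b hb
    rw [Derivation.leibniz, hc, hd, smul_eq_mul, smul_eq_mul, mul_comm a, mul_comm b,
      ← smul_eq_C_mul, ← smul_eq_C_mul]
    exact L.add_mem (L.smul_mem _ ha) (L.smul_mem _ hb)
  · intro x y hx hy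
    rw [map_add]; exact L.add_mem hx hy

lemma quad_mem {η : ℕ} (hG : ∀ j, (G j).IsHomogeneous (e j))
    (hH : ∀ (m : ℕ) (H : Fin m → MvPolynomial (Fin N) K), LinearIndependent K H →
        (∀ k, ∃ c : ℕ, H k ∈ Submodule.span K (G '' {j | e j = c})) →
        IsSerreSeq η (List.ofFn H))
    (f : MvPolynomial (Fin N) K) (hf : f ∈ Algebra.adjoin K (Set.range G))
    (h2 : f.IsHomogeneous 2)
    (hI : f ∈ Ideal.span (Submodule.span K (G '' {j | e j = 1}) : Set (MvPolynomial (Fin N) K))) :
    f ∈ Submodule.span K (G '' {j | e j = 1}) * Submodule.span K (G '' {j | e j = 1}) := by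
  set L := Submodule.span K (G '' {j | e j = 1}) with hL
  have h3 := (adjoin_components G e hG f hf).2
  rw [homogeneousComponent_eq_self h2, Submodule.mem_sup] at h3
  obtain ⟨q, hq, m, hm, rfl⟩ := h3
  by_cases hq0 : q = 0
  · rw [hq0, zero_add]; exact hm
  exfalso
  have hmI : m ∈ Ideal.span (L : Set (MvPolynomial (Fin N) K)) := by
    refine Submodule.mul_induction_on hm ?_ ?_
    · intro a _ b hb
      exact Ideal.mul_mem_left _ _ (Ideal.subset_span hb)
    · intro x y hx hy; exact Ideal.add_mem _ hx hy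
  have hqI : q ∈ Ideal.span (L : Set (MvPolynomial (Fin N) K)) := by
    have := Ideal.sub_mem _ hI hmI
    simpa using this
  have : FiniteDimensional K L :=
    FiniteDimensional.span_of_finite K (Set.Finite.image _ (Set.toFinite _))
  let b := Module.finBasis K L
  let b' : Fin (Module.finrank K L) → MvPolynomial (Fin N) K := fun k => (b k : _)
  have hb' : LinearIndependent K b' :=
    b.linearIndependent.map' L.subtype (Submodule.ker_subtype L)
  have hsp : Submodule.span K (Set.range b') = L := by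
    have : Set.range b' = L.subtype '' Set.range b := by
      rw [← Set.range_comp]; rfl
    rw [this, Submodule.span_image, b.span_eq, Submodule.map_top, Submodule.range_subtype]
  have hqL : q ∉ Submodule.span K (Set.range b') := by
    rw [hsp]
    intro h
    have k1 : q.IsHomogeneous 1 := span_le G e hG 1 h
    have k2 : q.IsHomogeneous 2 := span_le G e hG 2 hq
    exact absurd (k1.inj_right k2 hq0) (by norm_num)
  have hind : LinearIndependent K (Fin.snoc b' q : Fin (Module.finrank K L + 1) → _) :=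
    linearIndependent_finSnoc.2 ⟨hb', hqL⟩
  have hreg := (hH _ _ hind (by
    intro k
    refine Fin.lastCases ?_ (fun k => ?_) k
    · exact ⟨2, by simpa using hq⟩
    · exact ⟨1, by rw [Fin.snoc_castSucc]; exact (b k).2⟩)).1
  rw [List.ofFn_succ', List.concat_eq_append] at hreg
  simp only [Fin.snoc_castSucc, Fin.snoc_last] at hreg
  refine not_regular _ q ?_ hreg
  refine (Ideal.span_le.2 ?_) hqI
  intro x hx0
  have hx : x ∈ Submodule.span K (Set.range b') := by rw [hsp]; exact hx0
  clear hx0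
  induction hx using Submodule.span_induction with
  | mem x hx =>
    obtain ⟨k, rfl⟩ := hx
    exact Ideal.subset_span (by simp)
  | zero => exact Ideal.zero_mem _
  | add x y _ _ hx hy => exact Ideal.add_mem _ hx hy
  | smul r x _ hx => rw [smul_eq_C_mul]; exact Ideal.mul_mem_left _ _ hx

end

/-- the variables, indexed by natural numbers -/
noncomputable def xv (K : Type) [Field K] (N i : ℕ) : MvPolynomial (Fin N) K :=
  if h : i < N then X ⟨i, h⟩ else 0

lemma xv_hom (K : Type) [Field K] (N i : ℕ) : (xv K N i).IsHomogeneous 1 := by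
  unfold xv
  split_ifs
  · exact isHomogeneous_X _ _
  · exact isHomogeneous_zero _ _ _

lemma pderiv_xv (K : Type) [Field K] (N i : ℕ) (k : Fin N) :
    pderiv k (xv K N i) = if i = k.val then 1 else 0 := by
  unfold xv
  by_cases h : i < N
  · rw [dif_pos h]
    by_cases h2 : i = k.val
    · subst h2; simp
    · rw [if_neg h2, pderiv_X_of_ne]
      intro h3; exact h2 (congrArg Fin.val h3)
  · rw [dif_neg h, if_neg (by intro h2; exact h (h2 ▸ k.2))]; simp

/-- the forms of the example -/
noncomputable def ff (K : Type) [Field K] (N : ℕ) : ℕ → MvPolynomial (Fin N) K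
  | 0 => xv K N 0
  | j + 1 => ∑ i ∈ Finset.range (2 ^ j), xv K N i * xv K N (2 ^ j + i)

lemma ff_hom (K : Type) [Field K] (N j : ℕ) : (ff K N (j + 1)).IsHomogeneous 2 :=
  IsHomogeneous.sum _ _ _ fun _ _ => (xv_hom K N _).mul (xv_hom K N _)

theorem lower (η n d s : ℕ) (hn : 1 ≤ n) (hd : 2 ≤ d) (h : SmallSubalgebraBound η n d s) :
    2 ^ (n - 1) ≤ s := by
  obtain ⟨n, rfl⟩ : ∃ k, n = k + 1 := ⟨n - 1, by omega⟩
  rw [Nat.add_sub_cancel]
  obtain ⟨t, G, e, hts, hG, -, hF, hH⟩ := h ℂ (2 ^ n) (fun i => ff ℂ (2 ^ n) i.val) (by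
    rintro ⟨i, hi⟩
    cases i with
    | zero => exact ⟨1, one_pos, by omega, xv_hom _ _ _⟩
    | succ j => exact ⟨2, two_pos, hd, ff_hom _ _ _⟩)
  have hG' : ∀ j, (G j).IsHomogeneous (e j) := fun j => (hG j).2
  set L := Submodule.span ℂ (G '' {j | e j = 1}) with hL
  have key : ∀ j ≤ n, ∀ i < 2 ^ j, xv ℂ (2 ^ n) i ∈ L := by
    intro j
    induction j with
    | zero =>
      intro _ i hi
      obtain rfl : i = 0 := by omega
      have h1 := (adjoin_components G e hG' _ (hF 0)).1
      have h2 : ff ℂ (2 ^ n) ((0 : Fin (n + 1)).val) = xv ℂ (2 ^ n) 0 := rfl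
      rw [h2, homogeneousComponent_eq_self (xv_hom _ _ _)] at h1
      exact h1
    | succ j ih =>
      intro hj i hi
      have ih' := ih (by omega)
      by_cases hi2 : i < 2 ^ j
      · exact ih' i hi2
      have h1 := quad_mem G e hG' hH _ (hF ⟨j + 1, by omega⟩) (ff_hom _ _ _) (by
        refine Ideal.sum_mem _ fun k hk => ?_
        exact Ideal.mul_mem_right _ _ (Ideal.subset_span (ih' k (Finset.mem_range.1 hk))))
      have hlt : i - 2 ^ j < 2 ^ j := by rw [pow_succ] at hi; omega
      have hle : 2 ^ j ≤ 2 ^ n := Nat.pow_le_pow_right two_pos (by omega)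
      have h2 := pderiv_mem L (span_le G e hG' 1) _ h1 ⟨i - 2 ^ j, by omega⟩
      have h3 : pderiv (⟨i - 2 ^ j, by omega⟩ : Fin (2 ^ n)) (ff ℂ (2 ^ n) (j + 1)) =
          xv ℂ (2 ^ n) i := by
        simp only [ff, map_sum, Derivation.leibniz, pderiv_xv, smul_eq_mul]
        rw [Finset.sum_eq_single (i - 2 ^ j)]
        · rw [if_neg (by omega), if_pos rfl]
          have : 2 ^ j + (i - 2 ^ j) = i := by omega
          simp [this]
        · intro k _ hk
          rw [if_neg (by omega), if_neg hk]; simp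
        · intro hk; exact absurd (Finset.mem_range.2 hlt) hk
      rw [← h3]; exact h2
  have h1 : Submodule.span ℂ (Set.range (X : Fin (2 ^ n) → MvPolynomial (Fin (2 ^ n)) ℂ)) ≤
      Submodule.span ℂ (Set.range G) := by
    rw [Submodule.span_le]
    rintro _ ⟨i, rfl⟩
    have h2 := key n le_rfl i.val i.2
    have h3 : xv ℂ (2 ^ n) i.val = X i := by simp [xv]
    rw [h3] at h2
    exact Submodule.span_mono (Set.image_subset_range _ _) h2
  have : FiniteDimensional ℂ (Submodule.span ℂ (Set.range G)) :=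
    FiniteDimensional.span_of_finite ℂ (Set.finite_range G)
  have h2 := Submodule.finrank_mono h1
  rw [finrank_span_eq_card (linearIndependent_X _ _)] at h2
  have h3 := finrank_range_le_card (R := ℂ) G
  simp only [Fintype.card_fin] at h2 h3
  exact h2.trans (le_trans h3 hts)

theorem etaB_lower (η n d : ℕ) (hn : 1 ≤ n) (hd : 2 ≤ d) :
    ((2 ^ (n - 1) : ℕ) : ℕ∞) ≤ etaB η n d :=
  le_iInf₂ fun s hs => by exact_mod_cast lower η n d s hn hd hs

theorem not_poly (η d : ℕ) (hd : 2 ≤ d) :
    ¬ ∃ C e : ℝ, 0 < C ∧ 0 < e ∧ ∀ n : ℕ, 1 ≤ n →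
      (etaB η n d : ENNReal) ≤ ENNReal.ofReal (C * (n : ℝ) ^ e) := by
  rintro ⟨C, e, hC, he, h⟩
  obtain ⟨k, hk⟩ := exists_nat_ge e
  have h1 := (isLittleO_pow_const_const_pow_of_one_lt (R := ℝ) k one_lt_two).bound
    (c := 1 / (4 * C)) (by positivity)
  obtain ⟨n, hn1, hn2⟩ := (h1.and (Filter.eventually_ge_atTop 1)).exists
  have h2 := h n hn2
  have h3 : ((2 ^ (n - 1) : ℕ) : ENNReal) ≤ (etaB η n d : ENNReal) := by
    exact_mod_cast ENat.toENNReal_le.2 (etaB_lower η n d hn2 hd)
  have h4 := h3.trans h2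
  rw [← ENNReal.ofReal_natCast, ENNReal.ofReal_le_ofReal_iff (by positivity)] at h4
  have hn3 : (1 : ℝ) ≤ n := by exact_mod_cast hn2
  have h5 : (n : ℝ) ^ e ≤ (n : ℝ) ^ k := by
    rw [← Real.rpow_natCast]
    exact Real.rpow_le_rpow_of_exponent_le hn3 hk
  rw [Real.norm_of_nonneg (by positivity), Real.norm_of_nonneg (by positivity)] at hn1
  obtain ⟨m, rfl⟩ : ∃ m, n = m + 1 := ⟨n - 1, by omega⟩
  rw [Nat.add_sub_cancel] at h4
  push_cast at h4 h5 hn1
  have h6 : C * ((m : ℝ) + 1) ^ k ≤ 2 ^ (m + 1) / 4 := by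
    have := mul_le_mul_of_nonneg_left hn1 hC.le
    calc C * ((m : ℝ) + 1) ^ k ≤ C * (1 / (4 * C) * 2 ^ (m + 1)) := this
      _ = 2 ^ (m + 1) / 4 := by field_simp
  have h7 := mul_le_mul_of_nonneg_left h5 hC.le
  have h8 : (0 : ℝ) < 2 ^ m := by positivity
  rw [pow_succ] at h6
  linarith

end Pool.Agent.H948Z.SB
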